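import Mathlib

/-!
Abel's identity.
-/

namespace Pool.Agent.H.MP_20afc1_co

open Finset Polynomial

/-- alternating sums of powers vanish -/
theorem alt_sum_pow (n : ℕ) (m : ℕ) (hm : m < n) :
    ∑ k ∈ range (n + 1), (-1 : ℝ) ^ (n - k) * (n.choose k) * (k : ℝ) ^ m = 0 := by
  have h1 := fwdDiff_iter_pow_eq_zero_of_lt (R := ℝ) hm
  have h2 := fwdDiff_iter_eq_sum_shift (h := (1 : ℝ)) (fun r : ℝ => r ^ m) n 0
  rw [h1] at h2
  simp only [Pi.zero_apply, zero_add, nsmul_eq_mul, mul_one, zsmul_eq_mul] at h2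
  rw [h2]
  refine sum_congr rfl fun k _ => ?_
  push_cast
  ring

/-- Abel polynomials -/
noncomputable def abelP (n : ℕ) (c : ℝ) : ℝ[X] :=
  ∑ j ∈ range (n + 1), C (((n + 1).choose (j + 1) : ℝ) * ((j + 1 : ℕ) : ℝ) ^ j) *
    (X + C (c + ((n - j : ℕ) : ℝ))) ^ (n - j)

theorem abelP_deriv (n : ℕ) (c : ℝ) :
    derivative (abelP (n + 1) c) = C ((n : ℝ) + 2) * abelP n (c + 1) := by
  unfold abelP
  rw [derivative_sum, sum_range_succ, mul_sum]
  have h0 : derivative (C (((n + 1 + 1).choose (n + 1 + 1) : ℝ) * ((n + 1 + 1 : ℕ) : ℝ) ^ (n + 1)) *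
      (X + C (c + ((n + 1 - (n + 1) : ℕ) : ℝ))) ^ (n + 1 - (n + 1))) = 0 := by
    rw [Nat.sub_self, pow_zero, mul_one, derivative_C]
  rw [h0, add_zero]
  refine sum_congr rfl fun j hj => ?_
  rw [mem_range] at hj
  rw [derivative_C_mul, derivative_X_add_C_pow]
  have e1 : n + 1 - j - 1 = n - j := by omega
  have e2 : c + ((n + 1 - j : ℕ) : ℝ) = c + 1 + ((n - j : ℕ) : ℝ) := by
    have : n + 1 - j = (n - j) + 1 := by omega
    rw [this]
    push_cast
    ring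
  rw [e1, e2, ← mul_assoc, ← mul_assoc, ← C_mul, ← C_mul]
  congr 2
  have h3 := Nat.choose_mul_succ_eq (n + 1) (j + 1)
  have h4 : ((n + 1).choose (j + 1) : ℝ) * (n + 2) = ((n + 2).choose (j + 1)) * ((n + 1 - j : ℕ) : ℝ) := by
    have h5 : n + 1 + 1 - (j + 1) = n + 1 - j := by omega
    rw [h5] at h3
    exact_mod_cast h3
  have h5 : (n + 1 + 1).choose (j + 1) = (n + 2).choose (j + 1) := rfl
  rw [h5]
  linear_combination ((j + 1 : ℕ) : ℝ) ^ j * (-h4)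

theorem abel_identity (n : ℕ) : ∀ c : ℝ,
    abelP n c = C ((n : ℝ) + 1) * (X + C (c + (n + 1))) ^ n := by
  induction n with
  | zero =>
    intro c
    unfold abelP
    simp
  | succ n ih =>
    intro c
    have hd : derivative (abelP (n + 1) c -
        C (((n + 1 : ℕ) : ℝ) + 1) * (X + C (c + (((n + 1 : ℕ) : ℝ) + 1))) ^ (n + 1)) = 0 := by
      rw [derivative_sub, abelP_deriv, ih, derivative_C_mul, derivative_X_add_C_pow]
      have e1 : n + 1 - 1 = n := rfl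
      have e2 : c + 1 + ((n : ℝ) + 1) = c + (((n + 1 : ℕ) : ℝ) + 1) := by push_cast; ring
      rw [e1, e2, ← mul_assoc, ← mul_assoc, ← C_mul, ← C_mul, ← sub_mul, ← C_sub]
      have : ((n : ℝ) + 2) * (n + 1) - (((n + 1 : ℕ) : ℝ) + 1) * ((n + 1 : ℕ) : ℝ) = 0 := by
        push_cast; ring
      rw [this]
      simp
    have hC := eq_C_of_derivative_eq_zero hd
    set D := (abelP (n + 1) c -
        C (((n + 1 : ℕ) : ℝ) + 1) * (X + C (c + (((n + 1 : ℕ) : ℝ) + 1))) ^ (n + 1)) with hDdef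
    have hev : D.eval (-(c + (n + 2))) = 0 := by
      rw [hDdef, eval_sub]
      have h1 : (C (((n + 1 : ℕ) : ℝ) + 1) *
          (X + C (c + (((n + 1 : ℕ) : ℝ) + 1))) ^ (n + 1)).eval (-(c + (n + 2))) = 0 := by
        simp only [eval_mul, eval_C, eval_pow, eval_add, eval_X]
        have : -(c + ((n : ℝ) + 2)) + (c + (((n + 1 : ℕ) : ℝ) + 1)) = 0 := by push_cast; ring
        rw [this]
        simp
      rw [h1, sub_zero]
      unfold abelP
      rw [eval_finsetSum]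
      have h2 : ∀ j ∈ range (n + 1 + 1), (C (((n + 1 + 1).choose (j + 1) : ℝ) *
          ((j + 1 : ℕ) : ℝ) ^ j) * (X + C (c + ((n + 1 - j : ℕ) : ℝ))) ^ (n + 1 - j)).eval
          (-(c + (n + 2))) = (-1 : ℝ) ^ (n + 2 - (j + 1)) * ((n + 2).choose (j + 1)) *
          ((j + 1 : ℕ) : ℝ) ^ (n + 1) := by
        intro j hj
        rw [mem_range] at hj
        simp only [eval_mul, eval_C, eval_pow, eval_add, eval_X]
        have e1 : n + 2 - (j + 1) = n + 1 - j := by omega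
        have e2 : -(c + ((n : ℝ) + 2)) + (c + ((n + 1 - j : ℕ) : ℝ)) = -((j + 1 : ℕ) : ℝ) := by
          rw [Nat.cast_sub (by omega)]
          push_cast; ring
        rw [e1, e2, neg_pow]
        have e3 : ((j + 1 : ℕ) : ℝ) ^ (n + 1) =
            ((j + 1 : ℕ) : ℝ) ^ j * ((j + 1 : ℕ) : ℝ) ^ (n + 1 - j) := by
          rw [← pow_add]
          congr 1
          omega
        rw [e3]
        ring
      rw [sum_congr rfl h2]
      have h3 := alt_sum_pow (n + 2) (n + 1) (by omega)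
      rw [sum_range_succ'] at h3
      simpa using h3
    have h4 : D = 0 := by
      rw [hC] at hev ⊢
      rw [eval_C] at hev
      rw [hev, C_0]
    exact sub_eq_zero.1 h4

/-- Abel's identity -/
theorem abel_sum (n : ℕ) :
    ∑ j ∈ range (n + 1), ((n + 1).choose (j + 1) : ℝ) * ((j + 1 : ℕ) : ℝ) ^ j *
      ((n - j : ℕ) : ℝ) ^ (n - j) = (n + 1) * ((n : ℝ) + 1) ^ n := by
  have h := congrArg (eval 0) (abel_identity n 0)
  unfold abelP at h
  rw [eval_finsetSum] at h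
  simpa using h

/-- the symmetric form of Abel's identity -/
theorem abel_symm (n : ℕ) (hn : 2 ≤ n) :
    ∑ k ∈ Ico 1 n, (n.choose k : ℝ) * (k : ℝ) ^ (k - 1) * ((n - k : ℕ) : ℝ) ^ (n - k - 1) =
      2 * (n - 1) * (n : ℝ) ^ (n - 2) := by
  obtain ⟨m, rfl⟩ : ∃ m, n = m + 1 := ⟨n - 1, by omega⟩
  have h1 := abel_sum m
  -- the one-sided identity
  have h2 : ∑ k ∈ Ico 1 (m + 1), ((m + 1).choose k : ℝ) * (k : ℝ) ^ (k - 1) *
      ((m + 1 - k : ℕ) : ℝ) ^ (m + 1 - k) = m * ((m : ℝ) + 1) ^ m := by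
    rw [sum_range_succ] at h1
    have e1 : ∑ k ∈ Ico 1 (m + 1), ((m + 1).choose k : ℝ) * (k : ℝ) ^ (k - 1) *
      ((m + 1 - k : ℕ) : ℝ) ^ (m + 1 - k) = ∑ j ∈ range m, ((m + 1).choose (j + 1) : ℝ) *
        ((j + 1 : ℕ) : ℝ) ^ j * ((m - j : ℕ) : ℝ) ^ (m - j) := by
      rw [sum_Ico_eq_sum_range]
      refine sum_congr (by simp) fun j _ => ?_
      have a1 : 1 + j = j + 1 := by ring
      have a2 : m + 1 - (j + 1) = m - j := by omega
      rw [a1, a2]
      rfl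
    rw [e1]
    simp only [Nat.choose_self, Nat.cast_one, one_mul, Nat.sub_self, pow_zero, mul_one] at h1
    push_cast at h1 ⊢
    linarith
  set s := ∑ k ∈ Ico 1 (m + 1), ((m + 1).choose k : ℝ) * (k : ℝ) ^ (k - 1) *
    ((m + 1 - k : ℕ) : ℝ) ^ (m + 1 - k - 1) with hs
  have h3 : ((m + 1 : ℕ) : ℝ) * s = 2 * (m * ((m : ℝ) + 1) ^ m) := by
    have e1 : ((m + 1 : ℕ) : ℝ) * s =
        ∑ k ∈ Ico 1 (m + 1), (((m + 1).choose k : ℝ) * (k : ℝ) ^ (k - 1) *
          ((m + 1 - k : ℕ) : ℝ) ^ (m + 1 - k) +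
        ((m + 1).choose k : ℝ) * ((m + 1 - k : ℕ) : ℝ) ^ (m + 1 - k - 1) * (k : ℝ) ^ k) := by
      rw [hs, mul_sum]
      refine sum_congr rfl fun k hk => ?_
      rw [mem_Ico] at hk
      have a1 : ((m + 1 : ℕ) : ℝ) = (k : ℝ) + ((m + 1 - k : ℕ) : ℝ) := by
        rw [← Nat.cast_add]
        congr 1
        omega
      have a2 : (k : ℝ) ^ k = (k : ℝ) ^ (k - 1) * k := by
        rw [← pow_succ]
        congr 1
        omega
      have a3 : ((m + 1 - k : ℕ) : ℝ) ^ (m + 1 - k) =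
          ((m + 1 - k : ℕ) : ℝ) ^ (m + 1 - k - 1) * ((m + 1 - k : ℕ) : ℝ) := by
        rw [← pow_succ]
        congr 1
        omega
      rw [a1, a2, a3]
      ring
    rw [e1, sum_add_distrib, h2]
    have e2 : ∑ k ∈ Ico 1 (m + 1), ((m + 1).choose k : ℝ) *
        ((m + 1 - k : ℕ) : ℝ) ^ (m + 1 - k - 1) * (k : ℝ) ^ k =
        ∑ k ∈ Ico 1 (m + 1), ((m + 1).choose k : ℝ) * (k : ℝ) ^ (k - 1) *
          ((m + 1 - k : ℕ) : ℝ) ^ (m + 1 - k) := by
      refine sum_nbij' (fun k => m + 1 - k) (fun k => m + 1 - k) ?_ ?_ ?_ ?_ ?_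
      · intro k hk; rw [mem_Ico] at hk ⊢; omega
      · intro k hk; rw [mem_Ico] at hk ⊢; omega
      · intro k hk; rw [mem_Ico] at hk; omega
      · intro k hk; rw [mem_Ico] at hk; omega
      · intro k hk
        rw [mem_Ico] at hk
        have b1 : m + 1 - (m + 1 - k) = k := by omega
        rw [b1, Nat.choose_symm (by omega)]
    rw [e2, h2]
    ring
  have hm : ((m + 1 : ℕ) : ℝ) ≠ 0 := by positivity
  have h4 : ((m + 1 : ℕ) : ℝ) ^ m = ((m + 1 : ℕ) : ℝ) ^ (m + 1 - 2) * ((m + 1 : ℕ) : ℝ) := by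
    rw [← pow_succ]
    congr 1
    omega
  have h5 : ((m : ℝ) + 1) = ((m + 1 : ℕ) : ℝ) := by push_cast; rfl
  rw [h5, h4] at h3
  have h6 : s = 2 * (m * ((m + 1 : ℕ) : ℝ) ^ (m + 1 - 2)) := by
    have : ((m + 1 : ℕ) : ℝ) * s =
        ((m + 1 : ℕ) : ℝ) * (2 * (m * ((m + 1 : ℕ) : ℝ) ^ (m + 1 - 2))) := by
      rw [h3]; ring
    exact mul_left_cancel₀ hm this
  rw [h6]
  have h7 : ((m + 1 : ℕ) : ℝ) - 1 = m := by push_cast; ring
  rw [h7]
  ring

end Pool.Agent.H.MP_20afc1_co
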