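import Pool.Agent.H.MP_20afc1_co.Total

/-!
Asymptotics.
-/

namespace Pool.Agent.H.MP_20afc1_co

open SimpleGraph Finset Filter Topology

/-- the basic ratio -/
noncomputable def rat (m s : ℕ) : ℝ := (m.descFactorial s : ℝ) * numRT (m - s) / numRT m

theorem numRT_nonneg (m : ℕ) : 0 ≤ numRT m := Nat.cast_nonneg _

theorem rat_nonneg (m s : ℕ) : 0 ≤ rat m s :=
  div_nonneg (mul_nonneg (Nat.cast_nonneg _) (numRT_nonneg _)) (numRT_nonneg _)

theorem rat_zero {m : ℕ} (hm : 1 ≤ m) : rat m 0 = 1 := by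
  unfold rat
  rw [Nat.descFactorial_zero, Nat.sub_zero, Nat.cast_one, one_mul, div_self (numRT_pos m hm).ne']

theorem rat_le {m s : ℕ} (hm : 1 ≤ m) (hs : 1 ≤ s) :
    rat m s ≤ 2 * ((s.factorial : ℝ) / (s : ℝ) ^ (s - 1)) := by
  have hs0 : (0 : ℝ) < s := by exact_mod_cast hs
  have hm0 : (0 : ℝ) < m := by exact_mod_cast hm
  by_cases hsm : s ≤ m
  · have h1 := numRT_rec m hm
    have h2 : (m.choose s : ℝ) * (numRT s * numRT (m - s)) ≤
        ∑ k ∈ range (m + 1), (m.choose k : ℝ) * (numRT k * numRT (m - k)) :=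
      single_le_sum (f := fun k => (m.choose k : ℝ) * (numRT k * numRT (m - k)))
        (fun k _ => mul_nonneg (Nat.cast_nonneg _)
          (mul_nonneg (numRT_nonneg _) (numRT_nonneg _))) (by rw [mem_range]; omega)
    rw [← h1] at h2
    have h3 : (Nat.card (Tree (Fin m)) : ℝ) * (2 * (m - 1)) ≤ 2 * numRT m := by
      rw [numRT_eq]
      have : (0 : ℝ) ≤ Nat.card (Tree (Fin m)) := Nat.cast_nonneg _
      nlinarith
    have h4 := h2.trans h3
    rw [cayley_rooted s hs] at h4
    unfold rat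
    rw [div_le_iff₀ (numRT_pos m hm), Nat.descFactorial_eq_factorial_mul_choose]
    push_cast
    have hp : (0 : ℝ) < (s : ℝ) ^ (s - 1) := by positivity
    have e1 : (s.factorial : ℝ) * (m.choose s : ℝ) * numRT (m - s) =
        ((s.factorial : ℝ) / (s : ℝ) ^ (s - 1)) *
          ((m.choose s : ℝ) * ((s : ℝ) ^ (s - 1) * numRT (m - s))) := by
      field_simp
    rw [e1]
    calc ((s.factorial : ℝ) / (s : ℝ) ^ (s - 1)) *
          ((m.choose s : ℝ) * ((s : ℝ) ^ (s - 1) * numRT (m - s))) ≤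
        ((s.factorial : ℝ) / (s : ℝ) ^ (s - 1)) * (2 * numRT m) :=
          mul_le_mul_of_nonneg_left h4 (by positivity)
      _ = _ := by ring
  · unfold rat
    rw [Nat.descFactorial_eq_zero_iff_lt.2 (by omega)]
    simp only [Nat.cast_zero, zero_mul, zero_div]
    positivity

theorem factorial_le_pow_pred (s : ℕ) (hs : 1 ≤ s) : s.factorial ≤ s ^ (s - 1) := by
  obtain ⟨t, rfl⟩ : ∃ t, s = t + 1 := ⟨s - 1, by omega⟩
  rw [Nat.add_sub_cancel]
  induction t with
  | zero => simp
  | succ t ih =>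
    rw [Nat.factorial_succ, pow_succ, mul_comm]
    apply Nat.mul_le_mul_right
    refine (ih (by omega)).trans ?_
    exact Nat.pow_le_pow_left (by omega) _

theorem rat_le_two {m s : ℕ} (hm : 1 ≤ m) : rat m s ≤ 2 := by
  rcases Nat.eq_zero_or_pos s with rfl | hs
  · rw [rat_zero hm]; norm_num
  · refine (rat_le hm hs).trans ?_
    have h1 : (s.factorial : ℝ) ≤ (s : ℝ) ^ (s - 1) := by
      exact_mod_cast factorial_le_pow_pred s hs
    have hs0 : (0 : ℝ) < s := by exact_mod_cast hs
    have h2 : (s.factorial : ℝ) / (s : ℝ) ^ (s - 1) ≤ 1 := by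
      rw [div_le_one (by positivity)]; exact h1
    linarith

theorem rat_tendsto (s : ℕ) : Tendsto (fun m => rat m s) atTop (𝓝 (Real.exp (-s))) := by
  have h1 : Tendsto (fun m : ℕ => (m.descFactorial s : ℝ) / (m : ℝ) ^ s) atTop (𝓝 1) := by
    have h := isEquivalent_descFactorial s
    have hz : ∀ᶠ m : ℕ in atTop, ((m : ℝ) ^ s) ≠ 0 := by
      filter_upwards [eventually_ge_atTop 1] with m hm
      have : (0 : ℝ) < m := by exact_mod_cast hm
      positivity
    exact (Asymptotics.isEquivalent_iff_tendsto_one hz).1 h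
  have h2 : Tendsto (fun m : ℕ => (1 + (-(s : ℝ)) / m) ^ m) atTop (𝓝 (Real.exp (-s))) :=
    Real.tendsto_one_add_div_pow_exp (-(s : ℝ))
  have h3 : Tendsto (fun m : ℕ => 1 + (-(s : ℝ)) / m) atTop (𝓝 1) := by
    have : Tendsto (fun m : ℕ => (-(s : ℝ)) / m) atTop (𝓝 0) :=
      tendsto_const_div_atTop_nhds_zero_nat _
    simpa using this.const_add 1
  have h4 : Tendsto (fun m : ℕ => (m.descFactorial s : ℝ) / (m : ℝ) ^ s *
      ((1 + (-(s : ℝ)) / m) ^ m / (1 + (-(s : ℝ)) / m) ^ (s + 1))) atTop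
      (𝓝 (1 * (Real.exp (-s) / 1 ^ (s + 1)))) :=
    h1.mul (h2.div (h3.pow (s + 1)) (by norm_num))
  rw [one_pow, div_one, one_mul] at h4
  refine h4.congr' ?_
  filter_upwards [eventually_gt_atTop s] with m hm
  have hm0 : (0 : ℝ) < m := by
    have : 0 < m := by omega
    exact_mod_cast this
  have hms : (0 : ℝ) < ((m - s : ℕ) : ℝ) := by
    have : 0 < m - s := by omega
    exact_mod_cast this
  have hx : 1 + (-(s : ℝ)) / m = ((m - s : ℕ) : ℝ) / m := by
    rw [Nat.cast_sub hm.le]
    field_simp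
    ring
  rw [hx]
  unfold rat
  rw [cayley_rooted m (by omega), cayley_rooted (m - s) (by omega)]
  rw [div_pow, div_pow]
  have e1 : ((m - s : ℕ) : ℝ) ^ m =
      ((m - s : ℕ) : ℝ) ^ (m - s - 1) * ((m - s : ℕ) : ℝ) ^ (s + 1) := by
    rw [← pow_add]; congr 1; omega
  have e2 : (m : ℝ) ^ m = (m : ℝ) ^ (m - 1) * m := by
    rw [← pow_succ]; congr 1; omega
  rw [e1, e2, pow_succ (m : ℝ) s]
  field_simp

theorem mom_div {m i k : ℕ} (p : RT (Fin k)) :
    mom m i p / numRT m = rat m (i * k) / ((i.factorial : ℝ) * (autCard p.1.1 p.1.2 : ℝ) ^ i) := by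
  rw [mom_formula]
  unfold rat
  rw [div_div, div_div, mul_comm ((i.factorial : ℝ) * _) (numRT m)]

theorem rt_pos {k : ℕ} (p : RT (Fin k)) : 1 ≤ k := by
  have := p.1.2.pos
  omega

theorem hasBr_tendsto {k : ℕ} (p : RT (Fin k)) :
    Tendsto (fun m => hasBr m p / numRT m) atTop (𝓝 (1 - Real.exp (-pr p))) := by
  have hA : (1 : ℝ) ≤ autCard p.1.1 p.1.2 := by exact_mod_cast autCard_pos p
  have hk := rt_pos p
  set A : ℝ := (autCard p.1.1 p.1.2 : ℝ) with hAdef
  have h1 : Tendsto (fun m : ℕ => ∑' i : ℕ, (-1 : ℝ) ^ i *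
      (rat m (i * k) / ((i.factorial : ℝ) * A ^ i))) atTop
      (𝓝 (∑' i : ℕ, (-1 : ℝ) ^ i * (Real.exp (-(i * k : ℕ)) / ((i.factorial : ℝ) * A ^ i)))) := by
    apply tendsto_tsum_of_dominated_convergence (bound := fun i : ℕ => 2 * ((1 : ℝ) ^ i / i.factorial))
    · exact (Real.summable_pow_div_factorial 1).mul_left 2
    · intro i
      exact ((rat_tendsto (i * k)).div_const _).const_mul _
    · filter_upwards [eventually_ge_atTop 1] with m hm i
      rw [Real.norm_eq_abs, abs_mul, abs_pow, abs_neg, abs_one, one_pow, one_mul,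
        abs_of_nonneg (div_nonneg (rat_nonneg _ _) (by positivity))]
      have h2 := rat_le_two (s := i * k) hm
      have h3 : (1 : ℝ) ≤ A ^ i := one_le_pow₀ hA
      rw [div_le_iff₀ (by positivity)]
      have h4 : (0 : ℝ) < i.factorial := by positivity
      calc rat m (i * k) ≤ 2 := h2
        _ ≤ 2 * A ^ i := by linarith
        _ = 2 * (1 / (i.factorial : ℝ)) * ((i.factorial : ℝ) * A ^ i) := by field_simp
  have h5 : ∑' i : ℕ, (-1 : ℝ) ^ i * (Real.exp (-(i * k : ℕ)) / ((i.factorial : ℝ) * A ^ i)) =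
      Real.exp (-pr p) := by
    have h6 : HasSum (fun i : ℕ => (-pr p) ^ i / (i.factorial : ℝ)) (Real.exp (-pr p)) := by
      rw [Real.exp_eq_exp_ℝ]
      exact NormedSpace.expSeries_div_hasSum_exp (-pr p)
    rw [← h6.tsum_eq]
    refine tsum_congr fun i => ?_
    have h8 : pr p = Real.exp (-k) / A := rfl
    rw [h8, neg_pow (Real.exp (-(k : ℝ)) / A), div_pow, ← Real.exp_nat_mul]
    push_cast
    have : -((i : ℝ) * k) = i * -(k : ℝ) := by ring
    rw [this]
    field_simp
  rw [h5] at h1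
  have h7 := h1.const_sub 1
  refine h7.congr' ?_
  filter_upwards [eventually_ge_atTop 1] with m hm
  rw [hasBr_eq, sub_div, div_self (numRT_pos m hm).ne', sum_div]
  congr 1
  rw [tsum_eq_sum (s := range (m + 1))]
  · refine sum_congr rfl fun i _ => ?_
    rw [mul_div_assoc, mom_div]
  · intro i hi
    rw [mem_range] at hi
    have : m < i * k := by nlinarith
    unfold rat
    rw [Nat.descFactorial_eq_zero_iff_lt.2 this]
    simp

/-- the summable bound -/
noncomputable def bd (k : ℕ) : ℝ := 4 * k * ((k.factorial : ℝ) / (k : ℝ) ^ (k - 1))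

theorem factorial_mul_pow_four (k : ℕ) (hk : 1 ≤ k) : k.factorial * k ^ 4 ≤ 24 * k ^ k := by
  by_cases h4 : 4 ≤ k
  · have h1 := Nat.factorial_mul_descFactorial (n := k) (k := k - 4) (by omega)
    have h2 := Nat.descFactorial_le_pow k (k - 4)
    have h3 : k - (k - 4) = 4 := by omega
    rw [h3] at h1
    rw [← h1]
    have h5 : k ^ k = k ^ (k - 4) * k ^ 4 := by
      rw [← pow_add]; congr 1; omega
    rw [h5]
    have h6 : Nat.factorial 4 = 24 := rfl
    rw [h6]
    calc 24 * k.descFactorial (k - 4) * k ^ 4 ≤ 24 * k ^ (k - 4) * k ^ 4 := by gcongr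
      _ = 24 * (k ^ (k - 4) * k ^ 4) := by ring
  · have : k = 1 ∨ k = 2 ∨ k = 3 := by omega
    rcases this with rfl | rfl | rfl <;> decide

theorem bd_le (k : ℕ) : bd k ≤ 96 * (1 / (k : ℝ) ^ 2) := by
  rcases Nat.eq_zero_or_pos k with rfl | hk
  · unfold bd; simp
  · have hk0 : (0 : ℝ) < k := by exact_mod_cast hk
    have h1 : (k.factorial : ℝ) * (k : ℝ) ^ 4 ≤ 24 * (k : ℝ) ^ k := by
      exact_mod_cast factorial_mul_pow_four k hk
    unfold bd
    have h2 : (k : ℝ) ^ k = (k : ℝ) ^ (k - 1) * k := by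
      rw [← pow_succ]; congr 1; omega
    rw [h2] at h1
    rw [mul_one_div, mul_div_assoc', div_le_div_iff₀ (by positivity) (by positivity)]
    have h3 : (k.factorial : ℝ) * (k : ℝ) ^ 3 ≤ 24 * (k : ℝ) ^ (k - 1) := by
      have : (k.factorial : ℝ) * (k : ℝ) ^ 3 * k ≤ 24 * (k : ℝ) ^ (k - 1) * k := by
        calc (k.factorial : ℝ) * (k : ℝ) ^ 3 * k = (k.factorial : ℝ) * (k : ℝ) ^ 4 := by ring
          _ ≤ 24 * ((k : ℝ) ^ (k - 1) * k) := h1
          _ = _ := by ring
      exact le_of_mul_le_mul_right this hk0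
    calc 4 * (k : ℝ) * (k.factorial : ℝ) * (k : ℝ) ^ 2 = 4 * ((k.factorial : ℝ) * (k : ℝ) ^ 3) := by
          ring
      _ ≤ 4 * (24 * (k : ℝ) ^ (k - 1)) := by linarith
      _ = 96 * (k : ℝ) ^ (k - 1) := by ring

theorem bd_nonneg (k : ℕ) : 0 ≤ bd k := by unfold bd; positivity

theorem bd_summable : Summable bd :=
  Summable.of_nonneg_of_le bd_nonneg bd_le
    ((Real.summable_one_div_nat_pow.2 (by norm_num)).mul_left 96)

theorem fixCard_le {k : ℕ} (p : RT (Fin k)) : (fixCard p.1.1 p.1.2 : ℝ) ≤ k := by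
  unfold fixCard
  have := Set.ncard_le_ncard (Set.subset_univ (fixR p.1.1 p.1.2)) (Set.toFinite _)
  rw [Set.ncard_univ, Nat.card_eq_fintype_card, Fintype.card_fin] at this
  exact_mod_cast this

/-- the normalised terms -/
noncomputable def nterm (n k : ℕ) : ℝ := (n.choose k : ℝ) *
    (∑ p : RT (Fin k), (fixCard p.1.1 p.1.2 : ℝ) * hasBr (n - k) p) / numRT n

theorem numBad_div (n : ℕ) : numBad n / numRT n = ∑' k, nterm n k := by
  rw [numBad_eq, sum_div, tsum_eq_sum (s := range (n + 1))]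
  · rfl
  · intro k hk
    rw [mem_range] at hk
    unfold nterm
    rw [Nat.choose_eq_zero_of_lt (by omega)]
    simp

theorem nterm_eq (n k : ℕ) : nterm n k = rat n k / k.factorial *
    ∑ p : RT (Fin k), (fixCard p.1.1 p.1.2 : ℝ) * (hasBr (n - k) p / numRT (n - k)) := by
  have hkf : (k.factorial : ℝ) ≠ 0 := by positivity
  unfold nterm rat
  rw [Nat.descFactorial_eq_factorial_mul_choose]
  by_cases h : numRT (n - k) = 0
  · have h1 : ∀ p : RT (Fin k), hasBr (n - k) p = 0 := by
      intro p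
      have h2 := hasBr_le (n - k) p
      have h3 : mom (n - k) 1 p = 0 := by
        have h4 : (Fintype.card (RT (Fin (n - k))) : ℝ) = 0 := h
        have h5 : Fintype.card (RT (Fin (n - k))) = 0 := by exact_mod_cast h4
        have h6 : IsEmpty (RT (Fin (n - k))) := Fintype.card_eq_zero_iff.1 h5
        unfold mom
        rw [univ_eq_empty, sum_empty]
      rw [h3] at h2
      exact le_antisymm h2 (hasBr_nonneg _ _)
    have h2 : ∑ p : RT (Fin k), (fixCard p.1.1 p.1.2 : ℝ) * hasBr (n - k) p = 0 :=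
      sum_eq_zero fun p _ => by rw [h1 p, mul_zero]
    rw [h2, h]
    simp
  · have h2 : ∑ p : RT (Fin k), (fixCard p.1.1 p.1.2 : ℝ) * (hasBr (n - k) p / numRT (n - k)) =
        (∑ p : RT (Fin k), (fixCard p.1.1 p.1.2 : ℝ) * hasBr (n - k) p) / numRT (n - k) := by
      rw [sum_div]
      exact sum_congr rfl fun p _ => by rw [mul_div_assoc]
    rw [h2]
    push_cast
    field_simp

theorem nterm_nonneg (n k : ℕ) : 0 ≤ nterm n k := by
  unfold nterm
  apply div_nonneg _ (numRT_nonneg _)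
  apply mul_nonneg (Nat.cast_nonneg _)
  exact sum_nonneg fun p _ => mul_nonneg (Nat.cast_nonneg _) (hasBr_nonneg _ _)

theorem nterm_le {n k : ℕ} (hn : 1 ≤ n) : nterm n k ≤ bd k := by
  rcases Nat.eq_zero_or_pos k with rfl | hk
  · unfold nterm
    have : ∑ p : RT (Fin 0), (fixCard p.1.1 p.1.2 : ℝ) * hasBr (n - 0) p = 0 := by
      apply sum_eq_zero
      intro p _
      exact absurd (rt_pos p) (by norm_num)
    rw [this, mul_zero, zero_div]
    exact bd_nonneg 0
  have hk0 : (0 : ℝ) < k := by exact_mod_cast hk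
  set C : ℝ := (k.factorial : ℝ) / (k : ℝ) ^ (k - 1) with hC
  have hC0 : 0 ≤ C := by positivity
  rw [nterm_eq]
  have h1 : ∀ p : RT (Fin k), (fixCard p.1.1 p.1.2 : ℝ) * (hasBr (n - k) p / numRT (n - k)) ≤
      k * (2 * C) := by
    intro p
    have hA : (1 : ℝ) ≤ autCard p.1.1 p.1.2 := by exact_mod_cast autCard_pos p
    have h2 : hasBr (n - k) p / numRT (n - k) ≤ 2 * C := by
      rcases Nat.eq_zero_or_pos (n - k) with h0 | h0
      · rw [h0, numRT_zero, div_zero]; positivity
      · calc hasBr (n - k) p / numRT (n - k) ≤ mom (n - k) 1 p / numRT (n - k) :=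
              div_le_div_of_nonneg_right (hasBr_le _ _) (numRT_nonneg _)
          _ = rat (n - k) (1 * k) / ((Nat.factorial 1 : ℝ) * (autCard p.1.1 p.1.2 : ℝ) ^ 1) :=
              mom_div p
          _ ≤ rat (n - k) (1 * k) := by
              apply div_le_self (rat_nonneg _ _)
              simpa using hA
          _ ≤ 2 * C := by
              rw [one_mul]
              exact rat_le h0 hk
    have h3 : 0 ≤ hasBr (n - k) p / numRT (n - k) :=
      div_nonneg (hasBr_nonneg _ _) (numRT_nonneg _)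
    exact mul_le_mul (fixCard_le p) h2 h3 hk0.le
  have h2 : ∑ p : RT (Fin k), (fixCard p.1.1 p.1.2 : ℝ) * (hasBr (n - k) p / numRT (n - k)) ≤
      numRT k * (k * (2 * C)) := by
    refine (sum_le_sum fun p _ => h1 p).trans ?_
    rw [sum_const, card_univ, nsmul_eq_mul]
    exact le_refl _
  have h3 : rat n k / k.factorial ≤ 2 * C / k.factorial :=
    div_le_div_of_nonneg_right (rat_le hn hk) (by positivity)
  have h4 : 0 ≤ ∑ p : RT (Fin k), (fixCard p.1.1 p.1.2 : ℝ) *
      (hasBr (n - k) p / numRT (n - k)) :=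
    sum_nonneg fun p _ => mul_nonneg (Nat.cast_nonneg _)
      (div_nonneg (hasBr_nonneg _ _) (numRT_nonneg _))
  calc rat n k / k.factorial * ∑ p : RT (Fin k), (fixCard p.1.1 p.1.2 : ℝ) *
        (hasBr (n - k) p / numRT (n - k)) ≤ (2 * C / k.factorial) * (numRT k * (k * (2 * C))) :=
        mul_le_mul h3 h2 h4 (by positivity)
    _ = bd k := by
      rw [cayley_rooted k hk]
      unfold bd
      rw [← hC]
      have hCk : C * (k : ℝ) ^ (k - 1) = k.factorial := by
        rw [hC]; field_simp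
      have hkf : (k.factorial : ℝ) ≠ 0 := by positivity
      have : (2 * C / k.factorial) * ((k : ℝ) ^ (k - 1) * (k * (2 * C))) =
          4 * k * C * ((C * (k : ℝ) ^ (k - 1)) / k.factorial) := by ring
      rw [this, hCk, div_self hkf, mul_one]

theorem nterm_tendsto (k : ℕ) : Tendsto (fun n => nterm n k) atTop (𝓝 (term k)) := by
  have h1 : Tendsto (fun n => rat n k / k.factorial *
      ∑ p : RT (Fin k), (fixCard p.1.1 p.1.2 : ℝ) * (hasBr (n - k) p / numRT (n - k))) atTop
      (𝓝 (term k)) := by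
    unfold term
    apply ((rat_tendsto k).div_const _).mul
    apply tendsto_finsetSum
    intro p _
    exact ((hasBr_tendsto p).comp (tendsto_sub_atTop_nat k)).const_mul _
  exact h1.congr fun n => (nterm_eq n k).symm

theorem numBad_tendsto :
    Tendsto (fun n => numBad n / numRT n) atTop (𝓝 (∑' k, term k)) := by
  have h := tendsto_tsum_of_dominated_convergence (f := nterm) (g := term) (bound := bd)
    (𝓕 := atTop) bd_summable nterm_tendsto (by
      filter_upwards [eventually_ge_atTop 1] with n hn k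
      rw [Real.norm_eq_abs, abs_of_nonneg (nterm_nonneg n k)]
      exact nterm_le hn)
  exact h.congr fun n => (numBad_div n).symm

theorem term_nonneg (k : ℕ) : 0 ≤ term k :=
  ge_of_tendsto' (nterm_tendsto k) fun n => nterm_nonneg n k

theorem term_summable : Summable term := by
  refine Summable.of_nonneg_of_le term_nonneg (fun k => ?_) bd_summable
  refine le_of_tendsto (nterm_tendsto k) ?_
  filter_upwards [eventually_ge_atTop 1] with n hn
  exact nterm_le hn

theorem flip_le {n : ℕ} (hn : 1 ≤ n) : n * numFlip n / numRT n ≤ bd (n / 2) := by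
  have hR := numRT_pos n hn
  have h1 := numFlip_le n
  have hn0 : (0 : ℝ) ≤ n := Nat.cast_nonneg _
  split_ifs at h1 with h
  · set k := n / 2 with hk
    have hk1 : 1 ≤ k := by omega
    have h2 : n * numFlip n / numRT n ≤ n * rat n k := by
      unfold rat
      rw [mul_div_assoc', Nat.descFactorial_eq_factorial_mul_choose]
      apply div_le_div_of_nonneg_right _ hR.le
      have h3 : n - k = k := by omega
      rw [h3]
      push_cast
      calc (n : ℝ) * numFlip n ≤ n * ((n.choose k : ℝ) * (numRT k * (k.factorial : ℝ))) :=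
            mul_le_mul_of_nonneg_left h1 hn0
        _ = _ := by ring
    refine h2.trans ?_
    unfold bd
    have h4 := rat_le hn hk1
    have h5 : (n : ℝ) = 2 * k := by exact_mod_cast h
    calc (n : ℝ) * rat n k ≤ n * (2 * ((k.factorial : ℝ) / (k : ℝ) ^ (k - 1))) :=
          mul_le_mul_of_nonneg_left h4 hn0
      _ = _ := by rw [h5]; ring
  · have h2 : numFlip n = 0 := le_antisymm h1 (Nat.cast_nonneg _)
    rw [h2, mul_zero, zero_div]
    exact bd_nonneg _

theorem expFixed_tendsto : Tendsto expFixed atTop (𝓝 (1 - ∑' k, term k)) := by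
  have h1 := numBad_tendsto.const_sub 1
  have h2 : Tendsto (fun n : ℕ => bd (n / 2)) atTop (𝓝 0) :=
    bd_summable.tendsto_atTop_zero.comp (Nat.tendsto_div_const_atTop (by norm_num))
  have h3 := h1.sub h2
  rw [sub_zero] at h3
  refine tendsto_of_tendsto_of_tendsto_of_le_of_le' h3 h1 ?_ ?_
  · filter_upwards [eventually_ge_atTop 1] with n hn
    have := (expFixed_bounds n hn).2
    have := flip_le hn
    linarith
  · filter_upwards [eventually_ge_atTop 1] with n hn
    exact (expFixed_bounds n hn).1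

end Pool.Agent.H.MP_20afc1_co
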