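import Pool.Agent.H.MP_20afc1_co.Branch

/-!
Automorphisms of trees and branches.
-/

namespace Pool.Agent.H.MP_20afc1_co

open SimpleGraph

/-- isomorphism of rooted graphs -/
def RIso {α β : Type} (G : SimpleGraph α) (r : α) (H : SimpleGraph β) (s : β) : Prop :=
  ∃ φ : G ≃g H, φ r = s

variable {V W : Type} {T : SimpleGraph V} {u u' w r x x' y z v : V}

theorem RIso.refl {α : Type} (G : SimpleGraph α) (r : α) : RIso G r G r := ⟨Iso.refl, rfl⟩

theorem RIso.symm {α β : Type} {G : SimpleGraph α} {r : α} {H : SimpleGraph β} {s : β}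
    (h : RIso G r H s) : RIso H s G r := by
  obtain ⟨φ, hφ⟩ := h
  exact ⟨φ.symm, by rw [← hφ]; simp⟩

theorem RIso.trans {α β γ : Type} {G : SimpleGraph α} {r : α} {H : SimpleGraph β} {s : β}
    {K : SimpleGraph γ} {t : γ} (h : RIso G r H s) (h' : RIso H s K t) : RIso G r K t := by
  obtain ⟨φ, hφ⟩ := h
  obtain ⟨ψ, hψ⟩ := h'
  exact ⟨ψ.comp φ, by simp [hφ, hψ]⟩

/-- the rooted branch -/
def root (T : SimpleGraph V) (u u' : V) : branch T u u' := ⟨u, mem_branch_self⟩

/-- the directed edge `(u, u')` is bad if some automorphism fixes `u'` and moves `u` -/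
def Bad (T : SimpleGraph V) (u u' : V) : Prop :=
  T.Adj u u' ∧ ∃ σ : T ≃g T, σ u' = u' ∧ σ u ≠ u

open Classical in
/-- the map exchanging two isomorphic branches -/
noncomputable def swapFun (ψ : T.induce (branch T u r) ≃g T.induce (branch T w r)) (x : V) : V :=
  if hx : x ∈ branch T u r then (ψ ⟨x, hx⟩ : V)
  else if hx : x ∈ branch T w r then (ψ.symm ⟨x, hx⟩ : V) else x

section swap

variable (ψ : T.induce (branch T u r) ≃g T.induce (branch T w r))

theorem swapFun_left (hx : x ∈ branch T u r) : swapFun ψ x = ψ ⟨x, hx⟩ := by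
  unfold swapFun; rw [dif_pos hx]

theorem swapFun_right (hT : T.IsTree) (hu : T.Adj u r) (hw : T.Adj w r) (hne : u ≠ w)
    (hx : x ∈ branch T w r) : swapFun ψ x = ψ.symm ⟨x, hx⟩ := by
  unfold swapFun
  rw [dif_neg (fun h => Set.disjoint_left.1 (branch_disjoint hT hu hw hne) h hx), dif_pos hx]

theorem swapFun_out (h1 : x ∉ branch T u r) (h2 : x ∉ branch T w r) : swapFun ψ x = x := by
  unfold swapFun; rw [dif_neg h1, dif_neg h2]

theorem swapFun_invol (hT : T.IsTree) (hu : T.Adj u r) (hw : T.Adj w r) (hne : u ≠ w) (x : V) :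
    swapFun ψ (swapFun ψ x) = x := by
  by_cases h1 : x ∈ branch T u r
  · rw [swapFun_left ψ h1, swapFun_right ψ hT hu hw hne (ψ ⟨x, h1⟩).2]
    simp
  · by_cases h2 : x ∈ branch T w r
    · rw [swapFun_right ψ hT hu hw hne h2, swapFun_left ψ (ψ.symm ⟨x, h2⟩).2]
      simp
    · rw [swapFun_out ψ h1 h2, swapFun_out ψ h1 h2]

theorem swapFun_adj (hT : T.IsTree) (hu : T.Adj u r) (hw : T.Adj w r) (hne : u ≠ w)
    (hψ : ψ (root T u r) = root T w r) (hxy : T.Adj x y) :
    T.Adj (swapFun ψ x) (swapFun ψ y) := by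
  have hac := hT.isAcyclic
  have hdis := branch_disjoint hT hu hw hne
  have hr1 : r ∉ branch T u r := not_mem_branch hac hu
  have hr2 : r ∉ branch T w r := not_mem_branch hac hw
  have hsr : swapFun ψ r = r := swapFun_out ψ hr1 hr2
  have hsu : swapFun ψ u = w := by
    rw [swapFun_left ψ mem_branch_self]
    exact congrArg Subtype.val hψ
  have hsw : swapFun ψ w = u := by
    have h := congrArg (swapFun ψ) hsu
    rw [swapFun_invol ψ hT hu hw hne] at h
    exact h.symm
  have key : ∀ x y : V, T.Adj x y → x ∈ branch T u r ∪ branch T w r →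
      T.Adj (swapFun ψ x) (swapFun ψ y) := by
    intro x y hxy hx
    rcases hx with hx | hx
    · by_cases hy : y ∈ branch T u r
      · rw [swapFun_left ψ hx, swapFun_left ψ hy]
        exact (ψ.map_adj_iff (v := ⟨x, hx⟩) (w := ⟨y, hy⟩)).2 hxy
      · obtain ⟨rfl, rfl⟩ := branch_cross hac hu hxy hx hy
        rw [hsu, hsr]; exact hw
    · by_cases hy : y ∈ branch T w r
      · rw [swapFun_right ψ hT hu hw hne hx, swapFun_right ψ hT hu hw hne hy]
        exact (ψ.symm.map_adj_iff (v := ⟨x, hx⟩) (w := ⟨y, hy⟩)).2 hxy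
      · obtain ⟨rfl, rfl⟩ := branch_cross hac hw hxy hx hy
        rw [hsw, hsr]; exact hu
  by_cases hx : x ∈ branch T u r ∪ branch T w r
  · exact key x y hxy hx
  · by_cases hy : y ∈ branch T u r ∪ branch T w r
    · exact (key y x hxy.symm hy).symm
    · rw [Set.mem_union, not_or] at hx hy
      rw [swapFun_out ψ hx.1 hx.2, swapFun_out ψ hy.1 hy.2]
      exact hxy

/-- the automorphism exchanging two isomorphic branches -/
noncomputable def swapIso (hT : T.IsTree) (hu : T.Adj u r) (hw : T.Adj w r) (hne : u ≠ w)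
    (hψ : ψ (root T u r) = root T w r) : T ≃g T where
  toFun := swapFun ψ
  invFun := swapFun ψ
  left_inv := swapFun_invol ψ hT hu hw hne
  right_inv := swapFun_invol ψ hT hu hw hne
  map_rel_iff' := by
    intro a b
    constructor
    · intro h
      have := swapFun_adj ψ hT hu hw hne hψ h
      simp only [Equiv.coe_fn_mk] at this
      rw [swapFun_invol ψ hT hu hw hne, swapFun_invol ψ hT hu hw hne] at this
      exact this
    · intro h
      exact swapFun_adj ψ hT hu hw hne hψ h

theorem swapIso_apply (hT : T.IsTree) (hu : T.Adj u r) (hw : T.Adj w r) (hne : u ≠ w)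
    (hψ : ψ (root T u r) = root T w r) (x : V) :
    swapIso ψ hT hu hw hne hψ x = swapFun ψ x := rfl

end swap

/-- an automorphism maps a branch onto a branch -/
def brIso (φ : T ≃g T) (u u' : V) :
    T.induce (branch T u u') ≃g T.induce (branch T (φ u) (φ u')) :=
  isoInduce φ fun _ => branch_iso φ

theorem brIso_root (φ : T ≃g T) (u u' : V) :
    brIso φ u u' (root T u u') = root T (φ u) (φ u') := rfl

theorem bad_iff (hT : T.IsTree) (hu : T.Adj u r) : Bad T u r ↔
    ∃ w, w ≠ u ∧ T.Adj w r ∧ RIso (T.induce (branch T w r)) (root T w r)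
      (T.induce (branch T u r)) (root T u r) := by
  constructor
  · rintro ⟨_, σ, hσ, hσu⟩
    refine ⟨σ u, hσu, ?_, ?_⟩
    · have := σ.map_adj_iff.2 hu
      rwa [hσ] at this
    · have h1 : RIso (T.induce (branch T u r)) (root T u r)
          (T.induce (branch T (σ u) (σ r))) (root T (σ u) (σ r)) :=
        ⟨brIso σ u r, brIso_root σ u r⟩
      rw [hσ] at h1
      exact h1.symm
  · rintro ⟨w, hwu, hw, ψ, hψ⟩
    refine ⟨hu, swapIso ψ hT hw hu hwu hψ, ?_, ?_⟩
    · rw [swapIso_apply]
      exact swapFun_out ψ (not_mem_branch hT.isAcyclic hw) (not_mem_branch hT.isAcyclic hu)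
    · rw [swapIso_apply]
      have h1 : swapFun ψ w = u := by
        rw [swapFun_left ψ mem_branch_self]
        exact congrArg Subtype.val hψ
      have h2 : swapFun ψ u = w := by
        have h := congrArg (swapFun ψ) h1
        rw [swapFun_invol ψ hT hw hu hwu] at h
        exact h.symm
      rw [h2]
      exact hwu

/-- the size of a bad branch is less than half of the number of vertices -/
theorem Bad.small [Finite V] (hT : T.IsTree) (h : Bad T u r) :
    2 * (branch T u r).ncard < Nat.card V := by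
  obtain ⟨hu, σ, hσ, hσu⟩ := h
  have hw : T.Adj (σ u) r := by
    have := σ.map_adj_iff.2 hu
    rwa [hσ] at this
  have h1 := ncard_branch_iso (u := u) (u' := r) σ
  rw [hσ] at h1
  have h2 := branch_disjoint hT hu hw (Ne.symm hσu)
  have h3 : r ∉ branch T u r ∪ branch T (σ u) r := by
    rw [Set.mem_union, not_or]
    exact ⟨not_mem_branch hT.isAcyclic hu, not_mem_branch hT.isAcyclic hw⟩
  have h4 : (branch T u r ∪ branch T (σ u) r).ncard =
      (branch T u r).ncard + (branch T (σ u) r).ncard :=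
    Set.ncard_union_eq h2 (Set.toFinite _) (Set.toFinite _)
  have h5 : (branch T u r ∪ branch T (σ u) r).ncard < Nat.card V := by
    rw [← Set.ncard_univ]
    apply Set.ncard_lt_ncard _ (Set.toFinite _)
    rw [Set.ssubset_univ_iff]
    intro hcon
    rw [hcon] at h3
    exact h3 (Set.mem_univ _)
  omega

/-- vertices in bad branches are moved by an automorphism -/
theorem Bad.moves (hT : T.IsTree) (h : Bad T u r) (hv : v ∈ branch T u r) :
    ∃ σ : T ≃g T, σ v ≠ v := by
  obtain ⟨hu, σ, hσ, hσu⟩ := h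
  refine ⟨σ, fun hcon => ?_⟩
  have hw : T.Adj (σ u) r := by
    have := σ.map_adj_iff.2 hu
    rwa [hσ] at this
  have h1 : σ v ∈ branch T (σ u) (σ r) := (branch_iso σ).1 hv
  rw [hσ, hcon] at h1
  exact Set.disjoint_left.1 (branch_disjoint hT hu hw (Ne.symm hσu)) hv h1

/-- a vertex moved by an automorphism with a fixed vertex lies in a bad branch; more precisely -/
theorem exists_bad [Finite V] (hT : T.IsTree) (σ : T ≃g T) (hfix : ∃ x, σ x = x) (hv : σ v ≠ v) :
    ∃ u r, T.Adj u r ∧ σ r = r ∧ σ u ≠ u ∧ v ∈ branch T u r := by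
  obtain ⟨x, hx⟩ := hfix
  have hxv : v ≠ x := fun h => hv (by rw [h]; exact hx)
  obtain ⟨u₀, hu₀, hvu₀⟩ := exists_branch hT.1 hxv
  have hne : {p : V × V | σ p.2 = p.2 ∧ T.Adj p.1 p.2 ∧ v ∈ branch T p.1 p.2}.Nonempty :=
    ⟨(u₀, x), hx, hu₀, hvu₀⟩
  obtain ⟨⟨u, r⟩, hp, hmin⟩ := Set.exists_min_image _ (fun p : V × V => (branch T p.1 p.2).ncard)
    (Set.toFinite _) hne
  obtain ⟨h1, h2, h3⟩ := hp
  simp only at h1 h2 h3
  refine ⟨u, r, h2, h1, fun hu => ?_, h3⟩
  have hvu : v ≠ u := fun h => hv (by rw [h]; exact hu)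
  obtain ⟨w, hw, hvw⟩ := exists_branch hT.1 hvu
  have h4 := hmin (w, u) ⟨hu, hw, hvw⟩
  simp only at h4
  have h5 : branch T w u ⊆ branch T u r := by
    rcases side hT.isAcyclic h2 (induce_branch_connected w u).preconnected
      (fun hcon => not_mem_branch hT.isAcyclic hw hcon.1) with h6 | h6
    · exact h6
    · exact absurd h3 (Set.disjoint_left.1 h6 hvw)
  have h7 : (branch T w u).ncard < (branch T u r).ncard := by
    apply Set.ncard_lt_ncard _ (Set.toFinite _)
    refine ⟨h5, fun hcon => not_mem_branch hT.isAcyclic hw (hcon mem_branch_self)⟩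
  omega

/-- an automorphism of a finite tree without fixed vertex flips an edge -/
theorem exists_flip [Finite V] (hT : T.IsTree) (σ : T ≃g T) (hfix : ∀ x, σ x ≠ x) :
    ∃ x y, T.Adj x y ∧ σ x = y ∧ σ y = x := by
  have h := fun x => exists_branch hT.1 (hfix x)
  choose f hf1 hf2 using h
  have hcard := (isTree_iff_connected_and_card.1 hT).2
  have hni : ¬ Function.Injective (fun x => (⟨s(x, f x), (hf1 x).symm⟩ : T.edgeSet)) := by
    intro hinj
    have : Nat.card V ≤ Nat.card T.edgeSet := Nat.card_le_card_of_injective _ hinj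
    omega
  unfold Function.Injective at hni
  push Not at hni
  obtain ⟨x, y, hxy, hne⟩ := hni
  have hxy' : s(x, f x) = s(y, f y) := congrArg Subtype.val hxy
  rcases Sym2.eq_iff.1 hxy' with h1 | h1
  · exact absurd h1.1 hne
  · obtain ⟨h1, h2⟩ := h1
    -- `f y = x`, `f x = y`
    have hadj : T.Adj x y := by
      have := (hf1 x).symm
      rwa [h2] at this
    have h3 : σ x ∈ branch T y x := by
      have := hf2 x
      rwa [h2] at this
    have h4 : σ y ∈ branch T x y := by
      have := hf2 y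
      rwa [← h1] at this
    have h5 : σ y ∉ branch T y x := by
      rw [branch_compl hT hadj.symm] at h4
      exact h4
    have h6 := branch_cross hT.isAcyclic hadj.symm (σ.map_adj_iff.2 hadj) h3 h5
    exact ⟨x, y, hadj, h6.1, h6.2⟩

end Pool.Agent.H.MP_20afc1_co
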