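import Pool.Agent.H.MP_20afc1_co.Defs

/-!
Branches of trees.
-/

namespace Pool.Agent.H.MP_20afc1_co

open SimpleGraph

variable {V W : Type} {T : SimpleGraph V} {u u' w x x' y z : V}

/-- the branch of the directed edge `(u, u')`: all vertices reachable from `u` after deleting
the edge -/
def branch (T : SimpleGraph V) (u u' : V) : Set V :=
  {x | (T.deleteEdges {s(u, u')}).Reachable u x}

theorem mem_branch_self : u ∈ branch T u u' := Reachable.refl _

theorem not_mem_branch (hT : T.IsAcyclic) (h : T.Adj u u') : u' ∉ branch T u u' :=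
  isBridge_iff.1 (isAcyclic_iff_forall_adj_isBridge.1 hT h)

theorem branch_cross (hT : T.IsAcyclic) (h : T.Adj u u') (hxy : T.Adj x y)
    (hx : x ∈ branch T u u') (hy : y ∉ branch T u u') : x = u ∧ y = u' := by
  by_contra hcon
  by_cases he : s(x, y) = s(u, u')
  · rcases Sym2.eq_iff.1 he with h1 | h1
    · exact hcon h1
    · rw [h1.1] at hx
      exact not_mem_branch hT h hx
  · apply hy
    refine Reachable.trans hx (Adj.reachable ?_)
    rw [deleteEdges_adj]
    exact ⟨hxy, by simpa using he⟩

theorem closed_of_reachable {S : Set V} (hS : ∀ x y, T.Adj x y → x ∈ S → y ∈ S)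
    (h : T.Reachable x y) (hx : x ∈ S) : y ∈ S := by
  obtain ⟨p⟩ := h
  induction p with
  | nil => exact hx
  | cons h' p ih => exact ih (hS _ _ h' hx)

theorem branch_compl (hT : T.IsTree) (h : T.Adj u u') : branch T u' u = (branch T u u')ᶜ := by
  have hac := hT.isAcyclic
  ext z
  rw [Set.mem_compl_iff]
  constructor
  · intro h1 h2
    have h1' : (T.deleteEdges {s(u, u')}).Reachable u' z := by
      have : s(u', u) = s(u, u') := Sym2.eq_swap
      unfold branch at h1
      rw [this] at h1
      exact h1
    exact not_mem_branch hac h (Reachable.trans h2 h1'.symm)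
  · intro h1
    have hz : z ∈ branch T u u' ∪ branch T u' u := by
      refine closed_of_reachable (T := T) ?_ (hT.1.preconnected u z)
        (Or.inl mem_branch_self)
      intro x y hxy hx
      rcases hx with hx | hx
      · by_cases hy : y ∈ branch T u u'
        · exact Or.inl hy
        · have := branch_cross hac h hxy hx hy
          rw [this.2]
          exact Or.inr mem_branch_self
      · by_cases hy : y ∈ branch T u' u
        · exact Or.inr hy
        · have := branch_cross hac h.symm hxy hx hy
          rw [this.2]
          exact Or.inl mem_branch_self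
    exact hz.resolve_left h1

theorem induce_branch_connected (u u' : V) : (T.induce (branch T u u')).Connected := by
  set G := T.deleteEdges {s(u, u')} with hG
  have h1 := ConnectedComponent.connected_toSimpleGraph (G.connectedComponentMk u)
  have hS : (G.connectedComponentMk u).supp = branch T u u' := by
    ext x
    rw [ConnectedComponent.mem_supp_iff, ConnectedComponent.eq]
    exact ⟨fun h => h.symm, fun h => Reachable.symm h⟩
  have h1' : (G.induce (G.connectedComponentMk u).supp).Connected := h1
  rw [hS] at h1'
  refine Connected.mono ?_ h1'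
  intro a b hab
  have hle : G ≤ T := deleteEdges_le _
  exact hle (show G.Adj a b from hab)

theorem side (hT : T.IsAcyclic) (h : T.Adj x x') {Y : Set V} (hY : (T.induce Y).Preconnected)
    (hn : ¬ (x ∈ Y ∧ x' ∈ Y)) : Y ⊆ branch T x x' ∨ Disjoint Y (branch T x x') := by
  by_cases hex : ∃ y ∈ Y, y ∈ branch T x x'
  · left
    obtain ⟨y, hy, hyb⟩ := hex
    intro z hz
    have := closed_of_reachable (T := T.induce Y) (S := {a | a.1 ∈ branch T x x'})
      (fun a b hab ha => by
        by_contra hb
        have hcr := branch_cross hT h hab ha hb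
        exact hn ⟨hcr.1 ▸ a.2, hcr.2 ▸ b.2⟩) (hY ⟨y, hy⟩ ⟨z, hz⟩) hyb
    exact this
  · right
    push Not at hex
    rw [Set.disjoint_left]
    exact hex

theorem branch_disjoint (hT : T.IsTree) (h : T.Adj u u') (h' : T.Adj w u') (hne : u ≠ w) :
    Disjoint (branch T u u') (branch T w u') := by
  have hac := hT.isAcyclic
  rcases side hac h' (induce_branch_connected u u').preconnected
    (fun hcon => not_mem_branch hac h hcon.2) with h1 | h1
  · exfalso
    have h2 := branch_cross hac h' h (h1 mem_branch_self) (not_mem_branch hac h')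
    exact hne h2.1
  · exact h1

theorem exists_branch (hT : T.Connected) (hz : z ≠ u') :
    ∃ u, T.Adj u u' ∧ z ∈ branch T u u' := by
  obtain ⟨p, hp⟩ := hT.exists_isPath u' z
  cases p with
  | nil => exact absurd rfl hz
  | @cons _ b _ h q =>
    refine ⟨b, h.symm, ?_⟩
    rw [Walk.cons_isPath_iff] at hp
    change (T.deleteEdges {s(b, u')}).Reachable b z
    rw [reachable_deleteEdges_iff_exists_walk]
    exact ⟨q, fun he => hp.2 (Walk.snd_mem_support_of_mem_edges _ he)⟩

theorem branch_iso {T' : SimpleGraph W} (φ : T ≃g T') :
    x ∈ branch T u u' ↔ φ x ∈ branch T' (φ u) (φ u') := by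
  have key : ∀ {V W : Type} {T : SimpleGraph V} {T' : SimpleGraph W} (φ : T ≃g T') (x u u' : V),
      x ∈ branch T u u' → φ x ∈ branch T' (φ u) (φ u') := by
    intro V W T T' φ x u u' hx
    change (T'.deleteEdges {s(φ u, φ u')}).Reachable (φ u) (φ x)
    have hx' : (T.deleteEdges {s(u, u')}).Reachable u x := hx
    rw [reachable_deleteEdges_iff_exists_walk] at hx' ⊢
    obtain ⟨p, hp⟩ := hx'
    refine ⟨p.map φ.toHom, fun he => hp ?_⟩
    rw [Walk.edges_map, List.mem_map] at he
    obtain ⟨e, he1, he2⟩ := he
    have : e = s(u, u') := by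
      have hinj : Function.Injective (Sym2.map φ) := Sym2.map.injective φ.injective
      apply hinj
      exact he2
    rw [← this]
    exact he1
  refine ⟨key φ x u u', fun h => ?_⟩
  have := key φ.symm _ _ _ h
  simpa using this

/-- restriction of an isomorphism -/
def isoInduce {T' : SimpleGraph W} (φ : T ≃g T') {S : Set V} {S' : Set W}
    (h : ∀ x, x ∈ S ↔ φ x ∈ S') : T.induce S ≃g T'.induce S' where
  toEquiv := φ.toEquiv.subtypeEquiv h
  map_rel_iff' := by
    intro a b
    exact φ.map_adj_iff

@[simp] theorem isoInduce_apply {T' : SimpleGraph W} (φ : T ≃g T') {S : Set V} {S' : Set W}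
    (h : ∀ x, x ∈ S ↔ φ x ∈ S') (a : S) : ((isoInduce φ h a : S') : W) = φ a := rfl

theorem branch_induce (hT : T.IsTree) {S : Set V} (hS : (T.induce S).IsTree) (x x' : S)
    (h : T.Adj x x') : branch (T.induce S) x x' = Subtype.val ⁻¹' branch T (x : V) x' := by
  have key : ∀ (x x' : S), T.Adj x x' → branch (T.induce S) x x' ⊆
      Subtype.val ⁻¹' branch T (x : V) x' := by
    intro x x' h y hy
    change (T.deleteEdges {s((x : V), (x' : V))}).Reachable x y
    have hx' : ((T.induce S).deleteEdges {s(x, x')}).Reachable x y := hy
    rw [reachable_deleteEdges_iff_exists_walk] at hx' ⊢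
    obtain ⟨p, hp⟩ := hx'
    refine ⟨p.map (Embedding.induce S).toHom, fun he => hp ?_⟩
    have he' : s((x : V), (x' : V)) ∈
        p.edges.map (Sym2.map (Embedding.induce (G := T) S).toHom) := by
      rw [← Walk.edges_map]
      exact he
    rw [List.mem_map] at he'
    obtain ⟨e, he1, he2⟩ := he'
    have : e = s(x, x') := by
      have hinj : Function.Injective (Sym2.map (Subtype.val : S → V)) :=
        Sym2.map.injective Subtype.val_injective
      apply hinj
      exact he2
    rw [← this]
    exact he1
  apply Set.Subset.antisymm (key x x' h)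
  intro y hy
  by_contra hcon
  have h1 : y ∈ branch (T.induce S) x' x := by
    rw [branch_compl hS (show (T.induce S).Adj x x' from h)]
    exact hcon
  have h2 := key x' x h.symm h1
  have h3 : (y : V) ∈ branch T (x' : V) x := h2
  rw [branch_compl hT h] at h3
  exact h3 hy

theorem ncard_branch_add [Finite V] (hT : T.IsTree) (h : T.Adj u u') :
    (branch T u u').ncard + (branch T u' u).ncard = Nat.card V := by
  rw [branch_compl hT h]
  exact Set.ncard_add_ncard_compl _

theorem ncard_branch_iso {T' : SimpleGraph W} (φ : T ≃g T') :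
    (branch T' (φ u) (φ u')).ncard = (branch T u u').ncard := by
  have : branch T' (φ u) (φ u') = φ '' branch T u u' := by
    ext z
    constructor
    · intro hz
      refine ⟨φ.symm z, ?_, by simp⟩
      rw [branch_iso φ]
      simpa using hz
    · rintro ⟨y, hy, rfl⟩
      exact (branch_iso φ).1 hy
  rw [this]
  exact Set.ncard_image_of_injective _ φ.injective

theorem nested [Finite V] (hT : T.IsTree) (h : T.Adj u u') (h' : T.Adj x x')
    (h1 : 2 * (branch T u u').ncard < Nat.card V) (h2 : 2 * (branch T x x').ncard < Nat.card V)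
    (hv : (branch T u u' ∩ branch T x x').Nonempty) :
    branch T u u' ⊆ branch T x x' ∨ branch T x x' ⊆ branch T u u' := by
  have hac := hT.isAcyclic
  by_cases hc : x ∈ branch T u u' ∧ x' ∈ branch T u u'
  · right
    have hsz := ncard_branch_add hT h
    rcases side hac h' (induce_branch_connected u' u).preconnected
      (fun hcon => by
        rw [branch_compl hT h] at hcon
        exact hcon.1 hc.1) with h3 | h3
    · exfalso
      have := Set.ncard_le_ncard h3 (Set.toFinite _)
      omega
    · rw [branch_compl hT h, Set.disjoint_left] at h3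
      intro z hz
      by_contra hcon
      exact h3 hcon hz
  · rcases side hac h' (induce_branch_connected u u').preconnected hc with h3 | h3
    · exact Or.inl h3
    · exfalso
      obtain ⟨v, hv1, hv2⟩ := hv
      exact Set.disjoint_left.1 h3 hv1 hv2

end Pool.Agent.H.MP_20afc1_co
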