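import Pool.Agent.H.MP_20afc1_co.Relabel
import Pool.Agent.H.MP_20afc1_co.Abel

/-!
Cayley's formula.
-/

namespace Pool.Agent.H.MP_20afc1_co

open SimpleGraph Finset

/-- rooted trees are trees with a vertex -/
def rtTreeEquiv (V : Type) : RT V ≃ Tree V × V where
  toFun p := (⟨p.1.1, p.2⟩, p.1.2)
  invFun q := ⟨(q.1.1, q.2), q.1.2⟩
  left_inv _ := rfl
  right_inv _ := rfl

/-- trees with a directed edge -/
def cutEquivDart (V : Type) : Cut V ≃ ((G : Tree V) × G.1.Dart) where
  toFun x := ⟨⟨x.1.1, x.2.1⟩, ⟨(x.1.2.1, x.1.2.2), x.2.2⟩⟩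
  invFun y := ⟨(y.1.1, y.2.fst, y.2.snd), y.1.2, y.2.adj⟩
  left_inv _ := rfl
  right_inv _ := rfl

theorem card_cut (V : Type) [Finite V] :
    Nat.card (Cut V) = Nat.card (Tree V) * (2 * (Nat.card V - 1)) := by
  classical
  have : Fintype V := Fintype.ofFinite V
  rw [Nat.card_congr (cutEquivDart V), Nat.card_sigma]
  have h : ∀ G : Tree V, Nat.card G.1.Dart = 2 * (Nat.card V - 1) := by
    intro G
    have h1 := G.1.dart_card_eq_twice_card_edges
    have h2 := G.2.card_edgeFinset
    rw [Nat.card_eq_fintype_card, Nat.card_eq_fintype_card, h1]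
    omega
  rw [sum_congr rfl fun G _ => h G, sum_const, card_univ, smul_eq_mul]
  congr 1
  exact Nat.card_eq_fintype_card.symm

/-- number of rooted trees -/
noncomputable def numRT (n : ℕ) : ℝ := Fintype.card (RT (Fin n))

theorem numRT_eq (n : ℕ) : numRT n = (Nat.card (Tree (Fin n)) : ℝ) * n := by
  unfold numRT
  rw [Fintype.card_congr (rtTreeEquiv (Fin n)), Fintype.card_prod, Fintype.card_fin,
    Nat.card_eq_fintype_card]
  push_cast
  rfl

theorem numRT_zero : numRT 0 = 0 := by
  rw [numRT_eq]; simp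

theorem numRT_one : numRT 1 = 1 := by
  rw [numRT_eq]
  have : Nat.card (Tree (Fin 1)) = 1 := by
    rw [Nat.card_eq_one_iff_unique]
    refine ⟨⟨fun a b => Subtype.ext ?_⟩, ⟨⊥, IsTree.of_subsingleton⟩⟩
    ext x y
    have hxy : x = y := Subsingleton.elim _ _
    subst hxy
    simp
  rw [this]; simp

theorem numRT_rec (n : ℕ) (hn : 1 ≤ n) :
    (Nat.card (Tree (Fin n)) : ℝ) * (2 * (n - 1)) =
      ∑ k ∈ range (n + 1), (n.choose k : ℝ) * (numRT k * numRT (n - k)) := by
  have h1 := sum_cut_fin n (fun _ _ _ _ _ _ => 1) (by intro α α' β β' _ _ _ _ _ _ _ _ _ _; rfl)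
  have h2 : ∑ x : Cut (Fin n), onParts (fun _ _ _ _ _ _ => 1) (toParts x) =
      (Nat.card (Cut (Fin n)) : ℝ) := by
    unfold onParts
    rw [sum_const, card_univ, nsmul_eq_mul, mul_one, Nat.card_eq_fintype_card]
  rw [h2, card_cut] at h1
  rw [Nat.card_eq_fintype_card (α := Fin n), Fintype.card_fin] at h1
  push_cast [Nat.cast_sub hn] at h1
  rw [h1]
  refine sum_congr rfl fun k _ => ?_
  rw [sum_const, sum_const, card_univ, card_univ]
  unfold numRT
  simp only [nsmul_eq_mul, mul_one]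

theorem cayley_rooted (n : ℕ) (hn : 1 ≤ n) : numRT n = (n : ℝ) ^ (n - 1) := by
  induction n using Nat.strong_induction_on with
  | _ n ih =>
    by_cases h1 : n = 1
    · subst h1; rw [numRT_one]; simp
    · have hn2 : 2 ≤ n := by omega
      have h2 := numRT_rec n hn
      have h3 : ∑ k ∈ range (n + 1), (n.choose k : ℝ) * (numRT k * numRT (n - k)) =
          ∑ k ∈ Ico 1 n, (n.choose k : ℝ) * (k : ℝ) ^ (k - 1) *
            ((n - k : ℕ) : ℝ) ^ (n - k - 1) := by
        rw [sum_range_succ, Nat.sub_self, numRT_zero, mul_zero, mul_zero, add_zero,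
          range_eq_Ico, sum_eq_sum_Ico_succ_bot (by omega)]
        rw [numRT_zero, zero_mul, mul_zero, zero_add]
        refine sum_congr rfl fun k hk => ?_
        rw [mem_Ico] at hk
        rw [ih k (by omega) (by omega), ih (n - k) (by omega) (by omega)]
        ring
      rw [h3, abel_symm n hn2] at h2
      have h4 : (0 : ℝ) < 2 * (n - 1) := by
        have : (2 : ℝ) ≤ n := by exact_mod_cast hn2
        linarith
      have h5 : (Nat.card (Tree (Fin n)) : ℝ) = (n : ℝ) ^ (n - 2) := by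
        have h6 : (Nat.card (Tree (Fin n)) : ℝ) * (2 * (n - 1)) =
            (n : ℝ) ^ (n - 2) * (2 * (n - 1)) := by rw [h2]; ring
        exact mul_right_cancel₀ h4.ne' h6
      rw [numRT_eq, h5, ← pow_succ]
      congr 1
      omega

theorem numRT_pos (n : ℕ) (hn : 1 ≤ n) : 0 < numRT n := by
  rw [cayley_rooted n hn]
  have : (0 : ℝ) < n := by exact_mod_cast hn
  positivity

end Pool.Agent.H.MP_20afc1_co
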