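import Pool.Agent.H.MP_20afc1_co.Orbit

/-!
Counting rooted trees with given branches.
-/

namespace Pool.Agent.H.MP_20afc1_co

open SimpleGraph Finset

/-- trees with a directed edge are rooted trees with a neighbour of the root -/
def cutEquivNbr (V : Type) : Cut V ≃ ((q : RT V) × {u : V // q.1.1.Adj u q.1.2}) where
  toFun x := ⟨⟨(x.1.1, x.1.2.2), x.2.1⟩, ⟨x.1.2.1, x.2.2⟩⟩
  invFun y := ⟨(y.1.1.1, y.2.1, y.1.1.2), y.1.2, y.2.2⟩
  left_inv _ := rfl
  right_inv _ := rfl

open Classical in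
theorem sum_cut_nbr {V : Type} [Fintype V] (g : SimpleGraph V → V → V → ℝ) :
    ∑ x : Cut V, g x.1.1 x.1.2.1 x.1.2.2 =
      ∑ q : RT V, ∑ u : V with q.1.1.Adj u q.1.2, g q.1.1 u q.1.2 := by
  rw [Fintype.sum_equiv (cutEquivNbr V) (fun x => g x.1.1 x.1.2.1 x.1.2.2)
    (fun y => g y.1.1.1 y.2.1 y.1.1.2) (fun _ => rfl), Fintype.sum_sigma]
  refine sum_congr rfl fun q _ => ?_
  rw [← Finset.sum_subtype_eq_sum_filter]
  apply sum_congr _ (fun _ _ => rfl)
  ext u
  simp

/-- binomial moments of the number of branches of type `(P, s)` -/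
noncomputable def mom (m i : ℕ) {k : ℕ} (p : RT (Fin k)) : ℝ :=
  ∑ q : RT (Fin m), ((cnt q.1.1 q.1.2 p.1.1 p.1.2).choose i : ℝ)

theorem mom_zero (m : ℕ) {k : ℕ} (p : RT (Fin k)) : mom m 0 p = numRT m := by
  unfold mom numRT
  simp

theorem mom_rec (m i : ℕ) {k : ℕ} (p : RT (Fin k)) :
    ((i : ℝ) + 1) * mom m (i + 1) p =
      (m.choose k : ℝ) * ((k.factorial : ℝ) / autCard p.1.1 p.1.2) * mom (m - k) i p := by
  classical
  set F : PairFun := fun _ G r _ H s' =>
    if RIso G r p.1.1 p.1.2 then ((cnt H s' p.1.1 p.1.2).choose i : ℝ) else 0 with hFdef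
  have hF : Inv F := by
    intro α α' β β' G r G' r' H s H' s' h1 h2
    rw [hFdef]
    simp only
    rw [cnt_congr_left h2]
    by_cases h : RIso G r p.1.1 p.1.2
    · rw [if_pos h, if_pos (h1.symm.trans h)]
    · rw [if_neg h, if_neg (fun h' => h (h1.trans h'))]
  have h1 := sum_cut_fin m F hF
  -- left hand side
  have h2 : ∑ x : Cut (Fin m), onParts F (toParts x) = ((i : ℝ) + 1) * mom m (i + 1) p := by
    set g : SimpleGraph (Fin m) → Fin m → Fin m → ℝ := fun G u r =>
          if RIso (G.induce (branch G u r)) (root G u r) p.1.1 p.1.2 then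
            ((cnt G r p.1.1 p.1.2 - 1).choose i : ℝ) else 0 with hg
    have e1 : ∀ x : Cut (Fin m), onParts F (toParts x) = g x.1.1 x.1.2.1 x.1.2.2 := by
      rintro ⟨⟨G, u, r⟩, hG, hu⟩
      have h3 := cnt_prune hG hu p.1.1 p.1.2
      change (if RIso (G.induce (branch G u r)) (root G u r) p.1.1 p.1.2 then
        ((cnt (G.induce (branch G u r)ᶜ) (proot hG hu) p.1.1 p.1.2).choose i : ℝ) else 0) = _
      rw [hg]
      simp only
      split_ifs with h
      · rw [if_pos h] at h3
        rw [h3, Nat.add_sub_cancel]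
      · rfl
    rw [sum_congr rfl fun x _ => e1 x, sum_cut_nbr g]
    unfold mom
    rw [mul_sum]
    refine sum_congr rfl fun q _ => ?_
    rw [hg]
    simp only
    rw [← sum_filter, sum_const, filter_filter, nsmul_eq_mul]
    have e2 : (univ.filter fun u : Fin m => q.1.1.Adj u q.1.2 ∧
        RIso (q.1.1.induce (branch q.1.1 u q.1.2)) (root q.1.1 u q.1.2) p.1.1 p.1.2).card =
        cnt q.1.1 q.1.2 p.1.1 p.1.2 := by
      unfold cnt
      rw [Set.ncard_eq_toFinset_card']
      congr 1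
      ext u
      rw [mem_filter, Set.mem_toFinset]
      simp [nbr]
    rw [e2]
    set c := cnt q.1.1 q.1.2 p.1.1 p.1.2
    rcases Nat.eq_zero_or_pos c with h0 | h0
    · rw [h0]; simp
    · obtain ⟨d, hd⟩ : ∃ d, c = d + 1 := ⟨c - 1, by omega⟩
      rw [hd, Nat.add_sub_cancel]
      have := Nat.add_one_mul_choose_eq d i
      have h4 : ((d + 1 : ℕ) : ℝ) * (d.choose i : ℝ) =
          ((d + 1).choose (i + 1) : ℝ) * ((i + 1 : ℕ) : ℝ) := by exact_mod_cast this
      rw [h4]
      push_cast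
      ring
  -- right hand side
  have h3 : ∑ j ∈ range (m + 1), (m.choose j : ℝ) *
      ∑ p' : RT (Fin j), ∑ q : RT (Fin (m - j)),
        F (Fin j) p'.1.1 p'.1.2 (Fin (m - j)) q.1.1 q.1.2 =
      (m.choose k : ℝ) * ((k.factorial : ℝ) / autCard p.1.1 p.1.2) * mom (m - k) i p := by
    have e1 : ∀ j ∈ range (m + 1), j ≠ k → (m.choose j : ℝ) *
        ∑ p' : RT (Fin j), ∑ q : RT (Fin (m - j)),
        F (Fin j) p'.1.1 p'.1.2 (Fin (m - j)) q.1.1 q.1.2 = 0 := by
      intro j _ hjk
      have : ∀ p' : RT (Fin j), ∑ q : RT (Fin (m - j)),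
        F (Fin j) p'.1.1 p'.1.2 (Fin (m - j)) q.1.1 q.1.2 = 0 := by
        intro p'
        apply sum_eq_zero
        intro q _
        rw [hFdef]
        simp only
        rw [if_neg]
        rintro ⟨φ, -⟩
        apply hjk
        have := Fintype.card_congr φ.toEquiv
        simpa using this
      rw [sum_congr rfl fun p' _ => this p', sum_const_zero, mul_zero]
    have e2 : ∑ p' : RT (Fin k), ∑ q : RT (Fin (m - k)),
        F (Fin k) p'.1.1 p'.1.2 (Fin (m - k)) q.1.1 q.1.2 =
        ((k.factorial : ℝ) / autCard p.1.1 p.1.2) * mom (m - k) i p := by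
      have e3 : ∀ p' : RT (Fin k), ∑ q : RT (Fin (m - k)),
          F (Fin k) p'.1.1 p'.1.2 (Fin (m - k)) q.1.1 q.1.2 =
          if RIso p'.1.1 p'.1.2 p.1.1 p.1.2 then mom (m - k) i p else 0 := by
        intro p'
        rw [hFdef]
        simp only
        split_ifs with h
        · rfl
        · exact sum_const_zero
      rw [sum_congr rfl fun p' _ => e3 p', ← sum_filter, sum_const, nsmul_eq_mul]
      congr 1
      have h4 := card_class p
      have h5 : (autCard p.1.1 p.1.2 : ℝ) ≠ 0 := by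
        exact_mod_cast (autCard_pos p).ne'
      rw [eq_div_iff h5]
      exact_mod_cast h4
    by_cases hk : k ∈ range (m + 1)
    · rw [sum_eq_single_of_mem k hk (fun j hj hjk => e1 j hj hjk), e2]
      ring
    · rw [sum_eq_zero fun j hj => e1 j hj (fun h => hk (h ▸ hj))]
      rw [mem_range] at hk
      rw [Nat.choose_eq_zero_of_lt (by omega)]
      simp
  rw [← h2, h1, h3]

theorem mom_formula (i : ℕ) : ∀ (m : ℕ) {k : ℕ} (p : RT (Fin k)),
    mom m i p = (m.descFactorial (i * k) : ℝ) * numRT (m - i * k) /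
      ((i.factorial : ℝ) * (autCard p.1.1 p.1.2 : ℝ) ^ i) := by
  induction i with
  | zero =>
    intro m k p
    rw [mom_zero]
    simp
  | succ i ih =>
    intro m k p
    have h1 := mom_rec m i p
    have hA : (autCard p.1.1 p.1.2 : ℝ) ≠ 0 := by
      exact_mod_cast (autCard_pos p).ne'
    have hi : ((i : ℝ) + 1) ≠ 0 := by positivity
    have hif : (i.factorial : ℝ) ≠ 0 := by positivity
    have hkf : (k.factorial : ℝ) ≠ 0 := by positivity
    rw [ih (m - k) p] at h1
    have h2 : m - k - i * k = m - (i + 1) * k := by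
      have : (i + 1) * k = k + i * k := by ring
      omega
    rw [h2] at h1
    have h3 : (m.choose k : ℝ) * (k.factorial : ℝ) = (m.descFactorial k : ℝ) := by
      rw [Nat.descFactorial_eq_factorial_mul_choose]
      push_cast; ring
    have h4 : ((m - k).descFactorial (i * k) : ℝ) * (m.descFactorial k : ℝ) =
        (m.descFactorial ((i + 1) * k) : ℝ) := by
      have := Nat.descFactorial_mul_descFactorial (n := m) (k := k) (m := (i + 1) * k)
        (by nlinarith)
      have h5 : (i + 1) * k - k = i * k := by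
        have : (i + 1) * k = k + i * k := by ring
        omega
      rw [h5] at this
      exact_mod_cast this
    have h5 : mom m (i + 1) p = ((m.choose k : ℝ) * (k.factorial : ℝ)) *
        ((m - k).descFactorial (i * k) : ℝ) * numRT (m - (i + 1) * k) /
        (((i : ℝ) + 1) * (i.factorial : ℝ) *
          ((autCard p.1.1 p.1.2 : ℝ) ^ i * (autCard p.1.1 p.1.2 : ℝ))) := by
      rw [eq_div_iff (by positivity)]
      have h6 : mom m (i + 1) p * (((i : ℝ) + 1) * (i.factorial : ℝ) *
          ((autCard p.1.1 p.1.2 : ℝ) ^ i * (autCard p.1.1 p.1.2 : ℝ))) =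
          (((i : ℝ) + 1) * mom m (i + 1) p) * ((i.factorial : ℝ) *
          ((autCard p.1.1 p.1.2 : ℝ) ^ i * (autCard p.1.1 p.1.2 : ℝ))) := by ring
      rw [h6, h1]
      field_simp
    rw [h5, h3, Nat.factorial_succ]
    have h7 : (m.descFactorial k : ℝ) * ((m - k).descFactorial (i * k) : ℝ) =
        (m.descFactorial ((i + 1) * k) : ℝ) := by rw [← h4]; ring
    rw [h7, ← pow_succ]
    push_cast
    ring

/-- number of rooted trees with a branch of the given type -/
noncomputable def hasBr (m : ℕ) {k : ℕ} (p : RT (Fin k)) : ℝ :=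
  open Classical in
  ((univ.filter fun q : RT (Fin m) => cnt q.1.1 q.1.2 p.1.1 p.1.2 ≠ 0).card : ℝ)

theorem hasBr_nonneg (m : ℕ) {k : ℕ} (p : RT (Fin k)) : 0 ≤ hasBr m p := Nat.cast_nonneg _

theorem hasBr_le (m : ℕ) {k : ℕ} (p : RT (Fin k)) : hasBr m p ≤ mom m 1 p := by
  classical
  unfold hasBr mom
  rw [card_filter]
  push_cast
  apply sum_le_sum
  intro q _
  split_ifs with h
  · rw [Nat.choose_one_right]
    exact_mod_cast Nat.one_le_iff_ne_zero.2 h
  · positivity

theorem hasBr_eq (m : ℕ) {k : ℕ} (p : RT (Fin k)) :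
    hasBr m p = numRT m - ∑ i ∈ range (m + 1), (-1 : ℝ) ^ i * mom m i p := by
  classical
  have h1 : ∑ i ∈ range (m + 1), (-1 : ℝ) ^ i * mom m i p =
      ∑ q : RT (Fin m), if cnt q.1.1 q.1.2 p.1.1 p.1.2 = 0 then (1 : ℝ) else 0 := by
    unfold mom
    simp_rw [mul_sum]
    rw [sum_comm]
    refine sum_congr rfl fun q _ => ?_
    set c := cnt q.1.1 q.1.2 p.1.1 p.1.2 with hc
    have hcm : c ≤ m := by
      rw [hc]
      unfold cnt
      have := Set.ncard_le_ncard (Set.subset_univ (nbr q.1.1 q.1.2 p.1.1 p.1.2)) (Set.toFinite _)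
      rw [Set.ncard_univ, Nat.card_eq_fintype_card, Fintype.card_fin] at this
      exact this
    have h2 : ∑ i ∈ range (m + 1), (-1 : ℝ) ^ i * (c.choose i : ℝ) =
        ∑ i ∈ range (c + 1), (-1 : ℝ) ^ i * (c.choose i : ℝ) := by
      symm
      apply sum_subset (range_mono (by omega))
      intro i _ hi
      rw [mem_range] at hi
      rw [Nat.choose_eq_zero_of_lt (by omega)]
      simp
    rw [h2]
    have h3 := Int.alternating_sum_range_choose (n := c)
    have h4 : ((∑ i ∈ range (c + 1), (-1 : ℤ) ^ i * (c.choose i : ℤ) : ℤ) : ℝ) =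
        ((if c = 0 then (1 : ℤ) else 0 : ℤ) : ℝ) := by rw [h3]
    push_cast at h4
    exact h4
  rw [h1]
  unfold hasBr numRT
  rw [card_filter]
  push_cast
  rw [eq_sub_iff_add_eq, ← sum_add_distrib]
  have h2 : ∀ q : RT (Fin m), ((if cnt q.1.1 q.1.2 p.1.1 p.1.2 ≠ 0 then (1 : ℝ) else 0) +
      if cnt q.1.1 q.1.2 p.1.1 p.1.2 = 0 then (1 : ℝ) else 0) = 1 := by
    intro q
    by_cases h : cnt q.1.1 q.1.2 p.1.1 p.1.2 = 0
    · rw [if_neg (not_not.2 h), if_pos h]; norm_num
    · rw [if_pos h, if_neg h]; norm_num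
  rw [sum_congr rfl fun q _ => h2 q, sum_const, card_univ, nsmul_eq_mul, mul_one]

end Pool.Agent.H.MP_20afc1_co
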