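import Pool.Agent.H.MP_20afc1_co.Uniq

/-!
Cutting a tree at an edge.
-/

namespace Pool.Agent.H.MP_20afc1_co

open SimpleGraph

section sum

variable {α β : Type}

/-- two graphs joined by an edge -/
def join (H : SimpleGraph α) (u : α) (K : SimpleGraph β) (r : β) : SimpleGraph (α ⊕ β) :=
  (H ⊕g K) ⊔ edge (.inl u) (.inr r)

theorem join_isTree [Finite α] [Finite β] {H : SimpleGraph α} {u : α} {K : SimpleGraph β} {r : β}
    (hH : H.IsTree) (hK : K.IsTree) : (join H u K r).IsTree := by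
  rw [isTree_iff_connected_and_card]
  refine ⟨Connected.sum_sup_edge hH.1 hK.1, ?_⟩
  have h1 := (isTree_iff_connected_and_card.1 hH).2
  have h2 := (isTree_iff_connected_and_card.1 hK).2
  have h3 : (join H u K r).edgeSet = insert s(.inl u, .inr r) (H ⊕g K).edgeSet := by
    unfold join
    rw [edgeSet_sup, edgeSet_edge_of_ne (by simp)]
    ext e
    simp only [Set.mem_union, Set.mem_singleton_iff, Set.mem_insert_iff]
    tauto
  have h4 : (s(.inl u, .inr r) : Sym2 (α ⊕ β)) ∉ (H ⊕g K).edgeSet := by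
    rw [mem_edgeSet]
    exact not_adj_sum_inl_inr u r
  have h5 : Nat.card (H ⊕g K).edgeSet = Nat.card H.edgeSet + Nat.card K.edgeSet := by
    rw [Nat.card_congr edgeSetSumEquiv, Nat.card_sum]
  have h6 : Nat.card (join H u K r).edgeSet = Nat.card (H ⊕g K).edgeSet + 1 := by
    rw [h3]
    exact Set.ncard_insert_of_notMem h4 (Set.toFinite _)
  rw [Nat.card_sum]
  omega

theorem join_branch {H : SimpleGraph α} {u : α} {K : SimpleGraph β} {r : β} (hH : H.Connected) :
    branch (join H u K r) (.inl u) (.inr r) = Set.range Sum.inl := by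
  have h1 : (join H u K r).deleteEdges {s(.inl u, .inr r)} = H ⊕g K := by
    ext x y
    rw [deleteEdges_adj]
    unfold join
    rw [sup_adj, edge_adj]
    simp only [Set.mem_singleton_iff, Sym2.eq_iff]
    constructor
    · rintro ⟨h | h, h'⟩
      · exact h
      · exact absurd h.1 h'
    · intro h
      refine ⟨Or.inl h, ?_⟩
      rintro (⟨rfl, rfl⟩ | ⟨rfl, rfl⟩)
      · exact not_adj_sum_inl_inr u r h
      · exact not_adj_sum_inl_inr u r h.symm
  ext x
  change ((join H u K r).deleteEdges {s(.inl u, .inr r)}).Reachable (.inl u) x ↔ _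
  rw [h1]
  constructor
  · intro h
    rcases x with a | b
    · exact ⟨a, rfl⟩
    · exact absurd h (not_reachable_sum_inl_inr u b)
  · rintro ⟨a, rfl⟩
    exact (hH.preconnected u a).map Embedding.sumInl.toHom

end sum

variable {V : Type}

/-- two graphs on complementary sets joined by an edge -/
def glue (S : Set V) (H : SimpleGraph S) (u : S) (K : SimpleGraph ↥Sᶜ) (r : ↥Sᶜ) :
    SimpleGraph V where
  Adj x y := (∃ (hx : x ∈ S) (hy : y ∈ S), H.Adj ⟨x, hx⟩ ⟨y, hy⟩) ∨
    (∃ (hx : x ∈ Sᶜ) (hy : y ∈ Sᶜ), K.Adj ⟨x, hx⟩ ⟨y, hy⟩) ∨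
    (x = u ∧ y = r) ∨ (x = r ∧ y = u)
  symm := ⟨by
    rintro x y (⟨hx, hy, h⟩ | ⟨hx, hy, h⟩ | ⟨h1, h2⟩ | ⟨h1, h2⟩)
    · exact Or.inl ⟨hy, hx, h.symm⟩
    · exact Or.inr (Or.inl ⟨hy, hx, h.symm⟩)
    · exact Or.inr (Or.inr (Or.inr ⟨h2, h1⟩))
    · exact Or.inr (Or.inr (Or.inl ⟨h2, h1⟩))⟩
  loopless := ⟨by
    rintro x (⟨hx, hy, h⟩ | ⟨hx, hy, h⟩ | ⟨h1, h2⟩ | ⟨h1, h2⟩)
    · exact H.loopless.irrefl _ h
    · exact K.loopless.irrefl _ h
    · have h3 : (u : V) = r := h1.symm.trans h2
      exact r.2 (h3 ▸ u.2)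
    · have h3 : (u : V) = r := h2.symm.trans h1
      exact r.2 (h3 ▸ u.2)⟩

open Classical in
/-- the glued graph is isomorphic to the joined graph -/
noncomputable def glueIso (S : Set V) (H : SimpleGraph S) (u : S) (K : SimpleGraph ↥Sᶜ)
    (r : ↥Sᶜ) : join H u K r ≃g glue S H u K r where
  toEquiv := Equiv.Set.sumCompl S
  map_rel_iff' := by
    have hur : ∀ (a : S) (b : ↥Sᶜ), (a : V) ≠ b := fun a b h => b.2 (h ▸ a.2)
    rintro (a | a) (b | b)
    · simp only [Equiv.Set.sumCompl_apply_inl]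
      unfold join glue
      simp only [sup_adj, edge_adj, Subtype.coe_eta]
      constructor
      · rintro (⟨_, _, h⟩ | ⟨h, _⟩ | ⟨_, h⟩ | ⟨h, _⟩)
        · exact Or.inl (sum_adj_inl.2 h)
        · exact absurd a.2 h
        · exact absurd h (hur _ _)
        · exact absurd h (hur _ _)
      · rintro (h | ⟨h, _⟩)
        · exact Or.inl ⟨a.2, b.2, sum_adj_inl.1 h⟩
        · simp at h
    · simp only [Equiv.Set.sumCompl_apply_inl, Equiv.Set.sumCompl_apply_inr]
      unfold join glue
      simp only [sup_adj, edge_adj, Subtype.coe_eta]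
      constructor
      · rintro (⟨_, h, _⟩ | ⟨h, _⟩ | ⟨h1, h2⟩ | ⟨h, _⟩)
        · exact absurd h b.2
        · exact absurd a.2 h
        · right
          have h1' : a = u := Subtype.ext h1
          have h2' : b = r := Subtype.ext h2
          subst h1' h2'
          simp
        · exact absurd h (hur _ _)
      · rintro (h | ⟨h, _⟩)
        · exact absurd h (not_adj_sum_inl_inr a b)
        · right; right; left
          rcases h with ⟨h1, h2⟩ | ⟨h1, h2⟩
          · rw [Sum.inl.injEq] at h1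
            rw [Sum.inr.injEq] at h2
            rw [h1, h2]
            exact ⟨rfl, rfl⟩
          · simp at h1
    · simp only [Equiv.Set.sumCompl_apply_inl, Equiv.Set.sumCompl_apply_inr]
      unfold join glue
      simp only [sup_adj, edge_adj, Subtype.coe_eta]
      constructor
      · rintro (⟨h, _, _⟩ | ⟨_, h, _⟩ | ⟨h, _⟩ | ⟨h1, h2⟩)
        · exact absurd h a.2
        · exact absurd b.2 h
        · exact absurd h.symm (hur _ _)
        · right
          have h1' : a = r := Subtype.ext h1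
          have h2' : b = u := Subtype.ext h2
          subst h1' h2'
          simp
      · rintro (h | ⟨h, _⟩)
        · exact absurd h.symm (not_adj_sum_inl_inr b a)
        · right; right; right
          rcases h with ⟨h1, h2⟩ | ⟨h1, h2⟩
          · simp at h1
          · rw [Sum.inr.injEq] at h1
            rw [Sum.inl.injEq] at h2
            rw [h1, h2]
            exact ⟨rfl, rfl⟩
    · simp only [Equiv.Set.sumCompl_apply_inr]
      unfold join glue
      simp only [sup_adj, edge_adj, Subtype.coe_eta]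
      constructor
      · rintro (⟨h, _, _⟩ | ⟨_, _, h⟩ | ⟨h, _⟩ | ⟨_, h⟩)
        · exact absurd h a.2
        · exact Or.inl (sum_adj_inr.2 h)
        · exact absurd h.symm (hur _ _)
        · exact absurd h.symm (hur _ _)
      · rintro (h | ⟨h, _⟩)
        · exact Or.inr (Or.inl ⟨a.2, b.2, sum_adj_inr.1 h⟩)
        · simp at h

theorem glue_isTree [Finite V] {S : Set V} {H : SimpleGraph S} {u : S} {K : SimpleGraph ↥Sᶜ}
    {r : ↥Sᶜ} (hH : H.IsTree) (hK : K.IsTree) : (glue S H u K r).IsTree :=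
  (glueIso S H u K r).isTree_iff.1 (join_isTree hH hK)

theorem glue_adj_ur {S : Set V} {H : SimpleGraph S} {u : S} {K : SimpleGraph ↥Sᶜ}
    {r : ↥Sᶜ} : (glue S H u K r).Adj u r := Or.inr (Or.inr (Or.inl ⟨rfl, rfl⟩))

theorem glue_branch {S : Set V} {H : SimpleGraph S} {u : S} {K : SimpleGraph ↥Sᶜ}
    {r : ↥Sᶜ} (hH : H.Connected) : branch (glue S H u K r) u r = S := by
  classical
  ext x
  obtain ⟨y, rfl⟩ := (glueIso S H u K r).surjective x
  have h1 := branch_iso (x := y) (u := .inl u) (u' := .inr r) (glueIso S H u K r)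
  have h2 : glueIso S H u K r (.inl u) = u := Equiv.Set.sumCompl_apply_inl S u
  have h3 : glueIso S H u K r (.inr r) = r := Equiv.Set.sumCompl_apply_inr S r
  rw [h2, h3, join_branch hH] at h1
  rw [← h1]
  rcases y with a | b
  · have : glueIso S H u K r (.inl a) = a := Equiv.Set.sumCompl_apply_inl S a
    rw [this]
    simp
  · have : glueIso S H u K r (.inr b) = b := Equiv.Set.sumCompl_apply_inr S b
    rw [this]
    constructor
    · rintro ⟨a, ha⟩
      simp at ha
    · intro h
      exact absurd h b.2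

theorem glue_induce {S : Set V} {H : SimpleGraph S} {u : S} {K : SimpleGraph ↥Sᶜ}
    {r : ↥Sᶜ} : (glue S H u K r).induce S = H := by
  ext a b
  change (glue S H u K r).Adj a b ↔ H.Adj a b
  have hur : ∀ (a : S) (b : ↥Sᶜ), (a : V) ≠ b := fun a b h => b.2 (h ▸ a.2)
  constructor
  · rintro (⟨_, _, h⟩ | ⟨h, _⟩ | ⟨_, h⟩ | ⟨h, _⟩)
    · exact h
    · exact absurd a.2 h
    · exact absurd h (hur _ _)
    · exact absurd h (hur _ _)
  · intro h
    exact Or.inl ⟨a.2, b.2, h⟩

theorem glue_induce_compl {S : Set V} {H : SimpleGraph S} {u : S} {K : SimpleGraph ↥Sᶜ}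
    {r : ↥Sᶜ} : (glue S H u K r).induce Sᶜ = K := by
  ext a b
  change (glue S H u K r).Adj a b ↔ K.Adj a b
  have hur : ∀ (a : S) (b : ↥Sᶜ), (a : V) ≠ b := fun a b h => b.2 (h ▸ a.2)
  constructor
  · rintro (⟨h, _⟩ | ⟨_, _, h⟩ | ⟨h, _⟩ | ⟨_, h⟩)
    · exact absurd h a.2
    · exact h
    · exact absurd h.symm (hur _ _)
    · exact absurd h.symm (hur _ _)
  · intro h
    exact Or.inr (Or.inl ⟨a.2, b.2, h⟩)

theorem glue_cut {T : SimpleGraph V} (hT : T.IsTree) {u r : V} (hu : T.Adj u r) :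
    glue (branch T u r) (T.induce (branch T u r)) (root T u r) (T.induce (branch T u r)ᶜ)
      ⟨r, not_mem_branch hT.isAcyclic hu⟩ = T := by
  have hac := hT.isAcyclic
  ext x y
  constructor
  · rintro (⟨_, _, h⟩ | ⟨_, _, h⟩ | ⟨h1, h2⟩ | ⟨h1, h2⟩)
    · exact h
    · exact h
    · rw [h1, h2]; exact hu
    · rw [h1, h2]; exact hu.symm
  · intro h
    by_cases hx : x ∈ branch T u r
    · by_cases hy : y ∈ branch T u r
      · exact Or.inl ⟨hx, hy, h⟩
      · exact Or.inr (Or.inr (Or.inl (branch_cross hac hu h hx hy)))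
    · by_cases hy : y ∈ branch T u r
      · have := branch_cross hac hu h.symm hy hx
        exact Or.inr (Or.inr (Or.inr ⟨this.2, this.1⟩))
      · exact Or.inr (Or.inl ⟨hx, hy, h⟩)

theorem induce_isTree {T : SimpleGraph V} (hT : T.IsTree) (u r : V) :
    (T.induce (branch T u r)).IsTree :=
  ⟨induce_branch_connected u r, hT.isAcyclic.induce _⟩

theorem induce_compl_isTree {T : SimpleGraph V} (hT : T.IsTree) {u r : V} (hu : T.Adj u r) :
    (T.induce (branch T u r)ᶜ).IsTree := by
  rw [← branch_compl hT hu]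
  exact induce_isTree hT r u

/-- trees with a marked directed edge -/
def Cut (V : Type) : Type := {x : SimpleGraph V × V × V // x.1.IsTree ∧ x.1.Adj x.2.1 x.2.2}

noncomputable instance {α : Type} [Finite α] : Fintype (Cut α) := by
  unfold Cut
  exact Fintype.ofFinite _

/-- pairs of rooted trees on complementary sets -/
def Parts (V : Type) : Type := (S : Set V) × RT S × RT ↥Sᶜ

noncomputable instance {α : Type} [Finite α] : Fintype (Parts α) := by
  unfold Parts
  haveI : Fintype α := Fintype.ofFinite _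
  exact Fintype.ofFinite _

/-- gluing -/
def toCut [Finite V] (P : Parts V) : Cut V :=
  ⟨(glue P.1 P.2.1.1.1 P.2.1.1.2 P.2.2.1.1 P.2.2.1.2, P.2.1.1.2, P.2.2.1.2),
    glue_isTree P.2.1.2 P.2.2.2, glue_adj_ur⟩

/-- cutting -/
def toParts (x : Cut V) : Parts V :=
  ⟨branch x.1.1 x.1.2.1 x.1.2.2,
    ⟨(x.1.1.induce (branch x.1.1 x.1.2.1 x.1.2.2), root x.1.1 x.1.2.1 x.1.2.2),
      induce_isTree x.2.1 _ _⟩,
    ⟨(x.1.1.induce (branch x.1.1 x.1.2.1 x.1.2.2)ᶜ,
      ⟨x.1.2.2, not_mem_branch x.2.1.isAcyclic x.2.2⟩), induce_compl_isTree x.2.1 x.2.2⟩⟩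

theorem toCut_toParts [Finite V] (x : Cut V) : toCut (toParts x) = x := by
  obtain ⟨⟨T, u, r⟩, hT, hu⟩ := x
  apply Subtype.ext
  unfold toCut toParts
  simp only
  have := glue_cut hT hu
  simp only at this ⊢
  rw [this]
  rfl

theorem toCut_injective [Finite V] : Function.Injective (toCut (V := V)) := by
  rintro ⟨S, ⟨⟨H, u⟩, hH⟩, ⟨⟨K, r⟩, hK⟩⟩ ⟨S', ⟨⟨H', u'⟩, hH'⟩, ⟨⟨K', r'⟩, hK'⟩⟩ h
  have h0 := congrArg Subtype.val h
  unfold toCut at h0
  simp only [Prod.mk.injEq] at h0
  obtain ⟨h1, h2, h3⟩ := h0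
  have hS : S = S' := by
    rw [← glue_branch (u := u) (K := K) (r := r) hH.1,
      ← glue_branch (u := u') (K := K') (r := r') hH'.1, h1, h2, h3]
  subst hS
  have e1 : H = H' := by
    rw [← glue_induce (H := H) (u := u) (K := K) (r := r), h1, glue_induce]
  have e2 : K = K' := by
    rw [← glue_induce_compl (H := H) (u := u) (K := K) (r := r), h1, glue_induce_compl]
  have e3 : u = u' := Subtype.ext h2
  have e4 : r = r' := Subtype.ext h3
  subst e1 e2 e3 e4
  rfl

/-- the edge cut bijection -/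
noncomputable def cutEquiv [Finite V] : Parts V ≃ Cut V :=
  Equiv.ofBijective toCut ⟨toCut_injective, fun x => ⟨toParts x, toCut_toParts x⟩⟩

theorem sum_cut [Finite V] (F : Parts V → ℝ) : ∑ x : Cut V, F (toParts x) = ∑ P : Parts V, F P := by
  rw [← Equiv.sum_comp cutEquiv (fun x : Cut V => F (toParts x))]
  apply Finset.sum_congr rfl
  intro P _
  congr 1
  apply toCut_injective
  rw [toCut_toParts]
  rfl

end Pool.Agent.H.MP_20afc1_co
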