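import Mathlib

/-!
Definitions for the statement: fixed vertices of trees, the expected proportion of fixed vertices
of a uniform random labelled tree, and the limiting series.
-/

namespace Pool.Agent.H.MP_20afc1_co

open SimpleGraph Finset

/-- the vertices fixed by all automorphisms -/
def fixedVertices {α : Type} (G : SimpleGraph α) : Set α := {v | ∀ φ : G ≃g G, φ v = v}

/-- the trees with vertex set `V` -/
abbrev Tree (V : Type) : Type := {G : SimpleGraph V // G.IsTree}

noncomputable instance {V : Type} [Finite V] : Fintype (Tree V) := Fintype.ofFinite _

/-- the expected proportion of fixed vertices of a uniform random labelled tree -/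
noncomputable def expFixed (n : ℕ) : ℝ :=
  (∑ G : Tree (Fin n), ((fixedVertices G.1).ncard : ℝ) / n) / Nat.card (Tree (Fin n))

/-- the rooted trees with vertex set `α` -/
def RT (α : Type) : Type := {p : SimpleGraph α × α // p.1.IsTree}

noncomputable instance {α : Type} [Finite α] : Fintype (RT α) := by
  unfold RT
  exact Fintype.ofFinite _

/-- the vertices fixed by all automorphisms which fix the root -/
def fixR {α : Type} (G : SimpleGraph α) (r : α) : Set α := {v | ∀ φ : G ≃g G, φ r = r → φ v = v}

/-- number of vertices fixed by the automorphisms fixing the root -/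
noncomputable def fixCard {α : Type} (G : SimpleGraph α) (r : α) : ℕ := (fixR G r).ncard

/-- automorphisms fixing the root -/
def AutR {α : Type} (G : SimpleGraph α) (r : α) : Type := {φ : G ≃g G // φ r = r}

/-- the order of the group of automorphisms fixing the root -/
noncomputable def autCard {α : Type} (G : SimpleGraph α) (r : α) : ℕ := Nat.card (AutR G r)

/-- `e^(-k) / |Aut|` for a rooted tree with `k` vertices -/
noncomputable def pr {k : ℕ} (p : RT (Fin k)) : ℝ :=
  Real.exp (-k) / autCard p.1.1 p.1.2

/-- the terms of the limiting series -/
noncomputable def term (k : ℕ) : ℝ :=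
  Real.exp (-k) / k.factorial *
    ∑ p : RT (Fin k), (fixCard p.1.1 p.1.2 : ℝ) * (1 - Real.exp (-pr p))

end Pool.Agent.H.MP_20afc1_co
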