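import Pool.Agent.H.MP_20afc1_co.Asymp

/-!
Numerical bounds for the limit.
-/

namespace Pool.Agent.H.MP_20afc1_co

open SimpleGraph Finset Filter Topology

theorem small_fix {k : ℕ} (hk : k ≤ 2) (p : RT (Fin k)) (φ : p.1.1 ≃g p.1.1)
    (hφ : φ p.1.2 = p.1.2) (v : Fin k) : φ v = v := by
  by_cases hv : v = p.1.2
  · rw [hv]; exact hφ
  · have h1 : φ v ≠ p.1.2 := fun h => hv (φ.injective (by rw [h, hφ]))
    apply Fin.ext
    have h2 : (v : ℕ) ≠ (p.1.2 : ℕ) := fun h => hv (Fin.ext h)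
    have h3 : ((φ v : Fin k) : ℕ) ≠ (p.1.2 : ℕ) := fun h => h1 (Fin.ext h)
    have := (φ v).isLt
    have := v.isLt
    have := p.1.2.isLt
    omega

theorem small_fixCard {k : ℕ} (hk : k ≤ 2) (p : RT (Fin k)) : fixCard p.1.1 p.1.2 = k := by
  unfold fixCard
  have : fixR p.1.1 p.1.2 = Set.univ := by
    ext v
    exact ⟨fun _ => Set.mem_univ _, fun _ φ hφ => small_fix hk p φ hφ v⟩
  rw [this, Set.ncard_univ, Nat.card_eq_fintype_card, Fintype.card_fin]

theorem small_autCard {k : ℕ} (hk : k ≤ 2) (p : RT (Fin k)) : autCard p.1.1 p.1.2 = 1 := by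
  unfold autCard
  rw [Nat.card_eq_one_iff_unique]
  refine ⟨⟨fun a b => Subtype.ext ?_⟩, ⟨⟨Iso.refl, rfl⟩⟩⟩
  ext v
  rw [small_fix hk p a.1 a.2 v, small_fix hk p b.1 b.2 v]

theorem term_small {k : ℕ} (hk : k ≤ 2) (hk1 : 1 ≤ k) : term k =
    Real.exp (-k) / k.factorial * ((k : ℝ) ^ (k - 1) * (k * (1 - Real.exp (-Real.exp (-k))))) := by
  unfold term
  have h1 : ∀ p : RT (Fin k), (fixCard p.1.1 p.1.2 : ℝ) * (1 - Real.exp (-pr p)) =
      k * (1 - Real.exp (-Real.exp (-k))) := by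
    intro p
    unfold pr
    rw [small_fixCard hk p, small_autCard hk p]
    simp
  rw [sum_congr rfl fun p _ => h1 p, sum_const, card_univ, nsmul_eq_mul,
    ← cayley_rooted k hk1]
  rfl

theorem term_zero : term 0 = 0 := by
  unfold term
  have : ∑ p : RT (Fin 0), (fixCard p.1.1 p.1.2 : ℝ) * (1 - Real.exp (-pr p)) = 0 := by
    apply sum_eq_zero
    intro p _
    exact absurd (rt_pos p) (by norm_num)
  rw [this, mul_zero]

theorem term_le (k : ℕ) (hk : 1 ≤ k) :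
    term k ≤ Real.exp (-k) ^ 2 * ((k : ℝ) ^ k / k.factorial) := by
  unfold term
  have hk0 : (0 : ℝ) < k := by exact_mod_cast hk
  have h1 : ∀ p : RT (Fin k), (fixCard p.1.1 p.1.2 : ℝ) * (1 - Real.exp (-pr p)) ≤
      k * Real.exp (-k) := by
    intro p
    have hA : (1 : ℝ) ≤ autCard p.1.1 p.1.2 := by exact_mod_cast autCard_pos p
    have h2 : pr p ≤ Real.exp (-k) := div_le_self (Real.exp_pos _).le hA
    have h3 : 1 - Real.exp (-pr p) ≤ pr p := by
      have := Real.add_one_le_exp (-pr p)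
      linarith
    have h4 : 0 ≤ 1 - Real.exp (-pr p) := by
      have h5 : 0 ≤ pr p := div_nonneg (Real.exp_pos _).le (Nat.cast_nonneg _)
      have : Real.exp (-pr p) ≤ 1 := Real.exp_le_one_iff.2 (by linarith)
      linarith
    exact mul_le_mul (fixCard_le p) (h3.trans h2) h4 hk0.le
  have h2 : ∑ p : RT (Fin k), (fixCard p.1.1 p.1.2 : ℝ) * (1 - Real.exp (-pr p)) ≤
      (k : ℝ) ^ (k - 1) * (k * Real.exp (-k)) := by
    refine (sum_le_sum fun p _ => h1 p).trans ?_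
    rw [sum_const, card_univ, nsmul_eq_mul, ← cayley_rooted k hk]
    exact le_refl _
  have h3 : (k : ℝ) ^ k = (k : ℝ) ^ (k - 1) * k := by
    rw [← pow_succ]; congr 1; omega
  calc _ ≤ Real.exp (-k) / k.factorial * ((k : ℝ) ^ (k - 1) * (k * Real.exp (-k))) :=
        mul_le_mul_of_nonneg_left h2 (by positivity)
    _ = _ := by rw [h3]; ring

theorem pow_div_factorial_le (j : ℕ) :
    ((j + 3 : ℕ) : ℝ) ^ (j + 3) / (j + 3).factorial ≤ 9 / 2 * Real.exp j := by
  induction j with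
  | zero =>
    simp only [Nat.zero_add, Nat.cast_zero, Real.exp_zero]
    norm_num [Nat.factorial]
  | succ j ih =>
    have h1 : ((j + 1 + 3 : ℕ) : ℝ) ^ (j + 1 + 3) / (j + 1 + 3).factorial =
        (1 + 1 / ((j + 3 : ℕ) : ℝ)) ^ (j + 3) *
          (((j + 3 : ℕ) : ℝ) ^ (j + 3) / (j + 3).factorial) := by
      have h2 : (1 + 1 / ((j + 3 : ℕ) : ℝ)) = ((j + 1 + 3 : ℕ) : ℝ) / ((j + 3 : ℕ) : ℝ) := by
        have : ((j + 3 : ℕ) : ℝ) ≠ 0 := by positivity
        field_simp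
        push_cast; ring
      rw [h2, div_pow]
      have h3 : (j + 1 + 3).factorial = (j + 1 + 3) * (j + 3).factorial := Nat.factorial_succ _
      rw [h3]
      have h4 : ((j + 1 + 3 : ℕ) : ℝ) ^ (j + 1 + 3) =
          ((j + 1 + 3 : ℕ) : ℝ) ^ (j + 3) * ((j + 1 + 3 : ℕ) : ℝ) := pow_succ _ _
      rw [h4]
      have h5 : ((j + 3 : ℕ) : ℝ) ≠ 0 := by positivity
      have h6 : ((j + 1 + 3 : ℕ) : ℝ) ≠ 0 := by positivity
      rw [Nat.cast_mul]
      field_simp
    have h7 : (1 + 1 / ((j + 3 : ℕ) : ℝ)) ^ (j + 3) ≤ Real.exp 1 := by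
      have h8 : 1 + 1 / ((j + 3 : ℕ) : ℝ) ≤ Real.exp (1 / ((j + 3 : ℕ) : ℝ)) := by
        have := Real.add_one_le_exp (1 / ((j + 3 : ℕ) : ℝ))
        linarith
      calc (1 + 1 / ((j + 3 : ℕ) : ℝ)) ^ (j + 3) ≤
            (Real.exp (1 / ((j + 3 : ℕ) : ℝ))) ^ (j + 3) :=
            pow_le_pow_left₀ (by positivity) h8 _
        _ = Real.exp 1 := by
          rw [← Real.exp_nat_mul]
          congr 1
          have : ((j + 3 : ℕ) : ℝ) ≠ 0 := by positivity
          field_simp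
    rw [h1]
    calc _ ≤ Real.exp 1 * (9 / 2 * Real.exp j) :=
          mul_le_mul h7 ih (by positivity) (Real.exp_pos _).le
      _ = 9 / 2 * Real.exp ((j + 1 : ℕ) : ℝ) := by
        push_cast
        rw [Real.exp_add]
        ring

theorem tail_le : ∑' j : ℕ, term (j + 3) ≤ 9 / 2 * Real.exp (-1) ^ 6 / (1 - Real.exp (-1)) := by
  have hq0 : 0 ≤ Real.exp (-1) := (Real.exp_pos _).le
  have hq1 : Real.exp (-1) < 1 := Real.exp_lt_one_iff.2 (by norm_num)
  have h1 : ∀ j : ℕ, term (j + 3) ≤ 9 / 2 * Real.exp (-1) ^ 6 * Real.exp (-1) ^ j := by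
    intro j
    have h2 := term_le (j + 3) (by omega)
    have h3 := pow_div_factorial_le j
    have h4 : Real.exp (-((j + 3 : ℕ) : ℝ)) = Real.exp (-1) ^ (j + 3) := by
      rw [← Real.exp_nat_mul]
      congr 1
      ring
    have h5 : Real.exp (j : ℝ) * Real.exp (-1) ^ j = 1 := by
      rw [← Real.exp_nat_mul, ← Real.exp_add]
      have : (j : ℝ) + j * -1 = 0 := by ring
      rw [this, Real.exp_zero]
    calc term (j + 3) ≤ Real.exp (-((j + 3 : ℕ) : ℝ)) ^ 2 *
          (((j + 3 : ℕ) : ℝ) ^ (j + 3) / (j + 3).factorial) := h2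
      _ ≤ Real.exp (-((j + 3 : ℕ) : ℝ)) ^ 2 * (9 / 2 * Real.exp j) :=
          mul_le_mul_of_nonneg_left h3 (by positivity)
      _ = 9 / 2 * Real.exp (-1) ^ 6 * Real.exp (-1) ^ j * (Real.exp (j : ℝ) * Real.exp (-1) ^ j) := by
          rw [h4]; ring
      _ = _ := by rw [h5, mul_one]
  have h2 : Summable fun j : ℕ => 9 / 2 * Real.exp (-1) ^ 6 * Real.exp (-1) ^ j :=
    (summable_geometric_of_lt_one hq0 hq1).mul_left _
  calc ∑' j : ℕ, term (j + 3) ≤ ∑' j : ℕ, 9 / 2 * Real.exp (-1) ^ 6 * Real.exp (-1) ^ j :=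
        ((summable_nat_add_iff 3).2 term_summable).tsum_le_tsum h1 h2
    _ = _ := by rw [tsum_mul_left, tsum_geometric_of_lt_one hq0 hq1]; ring

theorem tsum_split : ∑' k, term k = term 1 + term 2 + ∑' j : ℕ, term (j + 3) := by
  rw [← term_summable.sum_add_tsum_nat_add 3]
  rw [sum_range_succ, sum_range_succ, sum_range_succ, sum_range_zero, term_zero]
  ring

theorem one_sub_exp_bounds {x : ℝ} (h0 : 0 ≤ x) (h1 : x ≤ 1) :
    x - x ^ 2 / 2 + x ^ 3 / 6 - x ^ 4 / 24 - x ^ 5 / 100 ≤ 1 - Real.exp (-x) ∧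
    1 - Real.exp (-x) ≤ x - x ^ 2 / 2 + x ^ 3 / 6 - x ^ 4 / 24 + x ^ 5 / 100 := by
  have h := Real.exp_bound (x := -x) (by rw [abs_neg, abs_of_nonneg h0]; exact h1)
    (n := 5) (by norm_num)
  rw [abs_neg, abs_of_nonneg h0] at h
  simp only [sum_range_succ, sum_range_zero, Nat.factorial] at h
  norm_num at h
  have h2 := abs_le.1 h
  constructor
  · nlinarith [h2.1, h2.2]
  · nlinarith [h2.1, h2.2]

theorem sum_bounds : 0.147 < ∑' k, term k ∧ ∑' k, term k < 0.166 := by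
  rw [tsum_split]
  have ht0 : 0 ≤ ∑' j : ℕ, term (j + 3) := tsum_nonneg fun j => term_nonneg _
  have ht1 := tail_le
  have hq1 := Real.exp_neg_one_gt_d9
  have hq2 := Real.exp_neg_one_lt_d9
  have e1 := term_small (k := 1) (by norm_num) (by norm_num)
  have e2 := term_small (k := 2) (by norm_num) (by norm_num)
  simp only [Nat.cast_one, Nat.cast_ofNat, Nat.factorial] at e1 e2
  have e3 : Real.exp (-2) = Real.exp (-1) ^ 2 := by
    rw [← Real.exp_nat_mul]
    norm_num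
  rw [e3] at e2
  set q := Real.exp (-1) with hq
  have hq2l : (0.1353352 : ℝ) < q ^ 2 := by nlinarith
  have hq2u : q ^ 2 < (0.1353353 : ℝ) := by nlinarith
  set s := q ^ 2 with hs
  have a1 : (0.3076 : ℝ) < 1 - Real.exp (-q) := by
    have h := (one_sub_exp_bounds (x := 0.36787944) (by norm_num) (by norm_num)).1
    have h2 : Real.exp (-q) ≤ Real.exp (-0.36787944) := Real.exp_le_exp.2 (by linarith)
    have h3 : (0.3076 : ℝ) < 0.36787944 - 0.36787944 ^ 2 / 2 + 0.36787944 ^ 3 / 6 - 0.36787944 ^ 4 / 24 - 0.36787944 ^ 5 / 100 := by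
      norm_num
    linarith
  have a2 : 1 - Real.exp (-q) < (0.3079 : ℝ) := by
    have h := (one_sub_exp_bounds (x := 0.36787945) (by norm_num) (by norm_num)).2
    have h2 : Real.exp (-0.36787945) ≤ Real.exp (-q) := Real.exp_le_exp.2 (by linarith)
    have h3 : 0.36787945 - 0.36787945 ^ 2 / 2 + 0.36787945 ^ 3 / 6 - 0.36787945 ^ 4 / 24 + 0.36787945 ^ 5 / 100 < (0.3079 : ℝ) := by
      norm_num
    linarith
  have b1 : (0.1265 : ℝ) < 1 - Real.exp (-s) := by
    have h := (one_sub_exp_bounds (x := 0.1353352) (by norm_num) (by norm_num)).1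
    have h2 : Real.exp (-s) ≤ Real.exp (-0.1353352) := Real.exp_le_exp.2 (by linarith)
    have h3 : (0.1265 : ℝ) < 0.1353352 - 0.1353352 ^ 2 / 2 + 0.1353352 ^ 3 / 6 - 0.1353352 ^ 4 / 24 - 0.1353352 ^ 5 / 100 := by
      norm_num
    linarith
  have b2 : 1 - Real.exp (-s) < (0.1266 : ℝ) := by
    have h := (one_sub_exp_bounds (x := 0.1353353) (by norm_num) (by norm_num)).2
    have h2 : Real.exp (-0.1353353) ≤ Real.exp (-s) := Real.exp_le_exp.2 (by linarith)
    have h3 : 0.1353353 - 0.1353353 ^ 2 / 2 + 0.1353353 ^ 3 / 6 - 0.1353353 ^ 4 / 24 + 0.1353353 ^ 5 / 100 < (0.1266 : ℝ) := by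
      norm_num
    linarith
  have f1 : term 1 = q * (1 - Real.exp (-q)) := by
    rw [e1]; norm_num
  have f2 : term 2 = 2 * s * (1 - Real.exp (-s)) := by
    rw [e2]; norm_num; ring
  have ht2 : 9 / 2 * q ^ 6 / (1 - q) < 0.0177 := by
    rw [div_lt_iff₀ (by linarith)]
    have : q ^ 6 = s ^ 3 := by rw [hs]; ring
    rw [this]
    have h3 : s ^ 3 < 0.0024788 := by
      have : s ^ 2 < 0.01831565 := by nlinarith
      nlinarith
    nlinarith
  rw [f1, f2]
  constructor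
  · nlinarith
  · nlinarith

end Pool.Agent.H.MP_20afc1_co
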