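import Pool.Agent.H.MP_20afc1_co.Prune

/-!
The number of labellings of a rooted tree.
-/

namespace Pool.Agent.H.MP_20afc1_co

open SimpleGraph Finset

variable {k : ℕ}

theorem rtEquiv_eq_iff (π : Equiv.Perm (Fin k)) (p q : RT (Fin k)) : rtEquiv π p = q ↔
    (∀ x y, q.1.1.Adj (π x) (π y) ↔ p.1.1.Adj x y) ∧ π p.1.2 = q.1.2 := by
  constructor
  · rintro rfl
    refine ⟨fun x y => ?_, rfl⟩
    change p.1.1.Adj (π.symm (π x)) (π.symm (π y)) ↔ p.1.1.Adj x y
    simp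
  · rintro ⟨h1, h2⟩
    apply Subtype.ext
    refine Prod.ext ?_ h2
    ext x y
    change p.1.1.Adj (π.symm x) (π.symm y) ↔ q.1.1.Adj x y
    rw [← h1]
    simp

noncomputable instance actRT : MulAction (Equiv.Perm (Fin k)) (RT (Fin k)) where
  smul π p := rtEquiv π p
  one_smul p := (rtEquiv_eq_iff 1 p p).2 ⟨fun _ _ => Iff.rfl, rfl⟩
  mul_smul π σ p := by
    refine (rtEquiv_eq_iff (π * σ) p _).2 ⟨fun x y => ?_, rfl⟩
    change p.1.1.Adj (σ.symm (π.symm (π (σ x)))) (σ.symm (π.symm (π (σ y)))) ↔ p.1.1.Adj x y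
    simp

theorem smul_def' (π : Equiv.Perm (Fin k)) (p : RT (Fin k)) : π • p = rtEquiv π p := rfl

theorem orbit_eq (p : RT (Fin k)) :
    MulAction.orbit (Equiv.Perm (Fin k)) p = {q | RIso q.1.1 q.1.2 p.1.1 p.1.2} := by
  ext q
  rw [MulAction.mem_orbit_iff]
  constructor
  · rintro ⟨π, rfl⟩
    exact (rtEquiv_riso π p).symm
  · intro h
    obtain ⟨φ, hφ⟩ := RIso.symm h
    refine ⟨φ.toEquiv, ?_⟩
    rw [smul_def', rtEquiv_eq_iff]
    exact ⟨fun x y => φ.map_adj_iff, hφ⟩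

/-- the stabilizer is the automorphism group -/
def stabEquiv (p : RT (Fin k)) :
    MulAction.stabilizer (Equiv.Perm (Fin k)) p ≃ AutR p.1.1 p.1.2 where
  toFun π := ⟨⟨π.1, by
      intro a b
      exact ((rtEquiv_eq_iff π.1 p p).1 (MulAction.mem_stabilizer_iff.1 π.2)).1 a b⟩,
      ((rtEquiv_eq_iff π.1 p p).1 (MulAction.mem_stabilizer_iff.1 π.2)).2⟩
  invFun φ := ⟨φ.1.toEquiv, MulAction.mem_stabilizer_iff.2
    ((rtEquiv_eq_iff _ p p).2 ⟨fun x y => φ.1.map_adj_iff, φ.2⟩)⟩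
  left_inv _ := rfl
  right_inv _ := rfl

instance (p : RT (Fin k)) : Finite (AutR p.1.1 p.1.2) := Finite.of_equiv _ (stabEquiv p)

theorem autCard_pos (p : RT (Fin k)) : 0 < autCard p.1.1 p.1.2 := by
  have : Nonempty (AutR p.1.1 p.1.2) := ⟨⟨Iso.refl, rfl⟩⟩
  exact Nat.card_pos

open Classical in
theorem card_class (p : RT (Fin k)) :
    (univ.filter fun q : RT (Fin k) => RIso q.1.1 q.1.2 p.1.1 p.1.2).card *
      autCard p.1.1 p.1.2 = k.factorial := by
  have h1 := MulAction.card_orbit_mul_card_stabilizer_eq_card_group (Equiv.Perm (Fin k)) p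
  have h2 : Fintype.card (MulAction.orbit (Equiv.Perm (Fin k)) p) =
      (univ.filter fun q : RT (Fin k) => RIso q.1.1 q.1.2 p.1.1 p.1.2).card := by
    rw [← Set.toFinset_card]
    congr 1
    ext q
    rw [Set.mem_toFinset, orbit_eq, mem_filter]
    simp
  have h3 : Fintype.card (MulAction.stabilizer (Equiv.Perm (Fin k)) p) =
      autCard p.1.1 p.1.2 := by
    rw [← Nat.card_eq_fintype_card]
    exact Nat.card_congr (stabEquiv p)
  rw [h2, h3, Fintype.card_perm, Fintype.card_fin] at h1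
  exact h1

end Pool.Agent.H.MP_20afc1_co
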