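import Pool.Agent.H.MP_20afc1_co.Cayley

/-!
Pruning: the branches of a tree at a vertex after the removal of one of them.
-/

namespace Pool.Agent.H.MP_20afc1_co

open SimpleGraph Finset

section inv

variable {α β γ δ : Type} {G : SimpleGraph α} {r : α} {G' : SimpleGraph β} {r' : β}
  {P : SimpleGraph γ} {s : γ} {P' : SimpleGraph δ} {s' : δ}

/-- the neighbours of `r` whose branch is isomorphic to `(P, s)` -/
def nbr (G : SimpleGraph α) (r : α) (P : SimpleGraph γ) (s : γ) : Set α :=
  {w | G.Adj w r ∧ RIso (G.induce (branch G w r)) (root G w r) P s}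

/-- their number -/
noncomputable def cnt (G : SimpleGraph α) (r : α) (P : SimpleGraph γ) (s : γ) : ℕ :=
  (nbr G r P s).ncard

theorem branch_riso (φ : G ≃g G') (w r : α) :
    RIso (G.induce (branch G w r)) (root G w r) (G'.induce (branch G' (φ w) (φ r)))
      (root G' (φ w) (φ r)) :=
  ⟨isoInduce φ fun _ => branch_iso φ, rfl⟩

theorem nbr_image (φ : G ≃g G') (hφ : φ r = r') : φ '' nbr G r P s = nbr G' r' P s := by
  subst hφ
  ext z
  constructor
  · rintro ⟨w, ⟨h1, h2⟩, rfl⟩
    exact ⟨φ.map_adj_iff.2 h1, (branch_riso φ w r).symm.trans h2⟩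
  · rintro ⟨h1, h2⟩
    refine ⟨φ.symm z, ⟨?_, ?_⟩, by simp⟩
    · rw [← φ.map_adj_iff]
      simpa using h1
    · have := branch_riso φ (φ.symm z) r
      rw [φ.apply_symm_apply] at this
      exact this.trans h2

theorem cnt_congr_left (h : RIso G r G' r') : cnt G r P s = cnt G' r' P s := by
  obtain ⟨φ, hφ⟩ := h
  unfold cnt
  rw [← nbr_image φ hφ]
  exact (Set.ncard_image_of_injective _ φ.injective).symm

theorem cnt_congr_right (h : RIso P s P' s') : cnt G r P s = cnt G r P' s' := by
  unfold cnt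
  congr 1
  ext w
  exact ⟨fun h1 => ⟨h1.1, h1.2.trans h⟩, fun h1 => ⟨h1.1, h1.2.trans h.symm⟩⟩

theorem fixR_image (φ : G ≃g G') (hφ : φ r = r') : φ '' fixR G r = fixR G' r' := by
  have key : ∀ {α β : Type} {G : SimpleGraph α} {G' : SimpleGraph β} (φ : G ≃g G') (r v : α),
      v ∈ fixR G r → φ v ∈ fixR G' (φ r) := by
    intro α β G G' φ r v hv ψ hψ
    have h1 := hv (φ.symm.comp (ψ.comp φ)) (by
      change φ.symm (ψ (φ r)) = r
      rw [hψ]; simp)
    have h2 : φ.symm (ψ (φ v)) = v := h1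
    have h3 := congrArg φ h2
    simpa using h3
  subst hφ
  ext z
  constructor
  · rintro ⟨w, hw, rfl⟩
    exact key φ r w hw
  · intro hz
    refine ⟨φ.symm z, ?_, by simp⟩
    have := key φ.symm _ _ hz
    simpa using this

theorem fixR_ncard_congr (h : RIso G r G' r') : (fixR G r).ncard = (fixR G' r').ncard := by
  obtain ⟨φ, hφ⟩ := h
  rw [← fixR_image φ hφ]
  exact (Set.ncard_image_of_injective _ φ.injective).symm

end inv

variable {V γ : Type} {T : SimpleGraph V} {u w r : V}

/-- the root of the pruned tree -/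
def proot (hT : T.IsTree) (hu : T.Adj u r) : ↥(branch T u r)ᶜ :=
  ⟨r, not_mem_branch hT.isAcyclic hu⟩

/-- branches of the pruned tree are branches of the tree -/
theorem prune_riso (hT : T.IsTree) (hu : T.Adj u r) (w : ↥(branch T u r)ᶜ) (hw : T.Adj w r) :
    RIso ((T.induce (branch T u r)ᶜ).induce (branch (T.induce (branch T u r)ᶜ) w (proot hT hu)))
      (root (T.induce (branch T u r)ᶜ) w (proot hT hu))
      (T.induce (branch T w r)) (root T w r) := by
  have hbr := branch_induce hT (induce_compl_isTree hT hu) w (proot hT hu) hw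
  have hne : (w : V) ≠ u := fun h => w.2 (by rw [h]; exact mem_branch_self)
  have hsub : branch T w r ⊆ (branch T u r)ᶜ := by
    intro z hz hz'
    exact Set.disjoint_left.1 (branch_disjoint hT hw hu hne) hz hz'
  have hmem : ∀ x : ↥(branch T u r)ᶜ, x ∈ branch (T.induce (branch T u r)ᶜ) w (proot hT hu) ↔
      (x : V) ∈ branch T w r := by
    intro x
    rw [hbr]
    rfl
  refine ⟨⟨⟨fun x => ⟨x.1.1, (hmem x.1).1 x.2⟩, fun y => ⟨⟨y.1, hsub y.2⟩, (hmem _).2 y.2⟩,
    fun _ => rfl, fun _ => rfl⟩, Iff.rfl⟩, rfl⟩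

open Classical in
/-- counting after pruning -/
theorem cnt_prune [Finite V] (hT : T.IsTree) (hu : T.Adj u r) (P : SimpleGraph γ) (s : γ) :
    cnt T r P s = cnt (T.induce (branch T u r)ᶜ) (proot hT hu) P s +
      if RIso (T.induce (branch T u r)) (root T u r) P s then 1 else 0 := by
  have h1 : nbr T r P s \ {u} =
      Subtype.val '' nbr (T.induce (branch T u r)ᶜ) (proot hT hu) P s := by
    ext z
    constructor
    · rintro ⟨⟨hz1, hz2⟩, hz3⟩
      have hzu : z ≠ u := hz3
      have hzb : z ∈ (branch T u r)ᶜ := fun h =>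
        Set.disjoint_left.1 (branch_disjoint hT hz1 hu hzu) mem_branch_self h
      exact ⟨⟨z, hzb⟩, ⟨hz1, (prune_riso hT hu ⟨z, hzb⟩ hz1).trans hz2⟩, rfl⟩
    · rintro ⟨w, ⟨hw1, hw2⟩, rfl⟩
      have hw1' : T.Adj w r := hw1
      refine ⟨⟨hw1', (prune_riso hT hu w hw1').symm.trans hw2⟩, ?_⟩
      intro h
      have h' : (w : V) = u := h
      exact w.2 (by rw [h']; exact mem_branch_self)
  have h2 : cnt (T.induce (branch T u r)ᶜ) (proot hT hu) P s = (nbr T r P s \ {u}).ncard := by
    rw [h1]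
    exact (Set.ncard_image_of_injective _ Subtype.val_injective).symm
  rw [h2]
  unfold cnt
  split_ifs with h
  · have hmem : u ∈ nbr T r P s := ⟨hu, h⟩
    exact (Set.ncard_sdiff_singleton_add_one hmem (Set.toFinite _)).symm
  · have hmem : u ∉ nbr T r P s := fun hcon => h hcon.2
    rw [Set.sdiff_singleton_eq_self hmem, add_zero]

/-- badness in terms of the pruned tree -/
theorem bad_iff_cnt [Finite V] (hT : T.IsTree) (hu : T.Adj u r) : Bad T u r ↔
    cnt (T.induce (branch T u r)ᶜ) (proot hT hu) (T.induce (branch T u r)) (root T u r) ≠ 0 := by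
  classical
  rw [bad_iff hT hu]
  have h1 := cnt_prune hT hu (T.induce (branch T u r)) (root T u r)
  rw [if_pos (RIso.refl _ _)] at h1
  have hmem : u ∈ nbr T r (T.induce (branch T u r)) (root T u r) := ⟨hu, RIso.refl _ _⟩
  have h2 : cnt (T.induce (branch T u r)ᶜ) (proot hT hu) (T.induce (branch T u r)) (root T u r) =
      (nbr T r (T.induce (branch T u r)) (root T u r) \ {u}).ncard := by
    have := Set.ncard_sdiff_singleton_add_one hmem (Set.toFinite _)
    unfold cnt at h1 ⊢
    omega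
  rw [h2, ← Nat.pos_iff_ne_zero, Set.ncard_pos (Set.toFinite _)]
  constructor
  · rintro ⟨w, hwu, hw, hr⟩
    exact ⟨w, ⟨hw, hr⟩, hwu⟩
  · rintro ⟨w, ⟨hw, hr⟩, hwu⟩
    exact ⟨w, hwu, hw, hr⟩

/-- the vertices in bad branches, counted as fixed vertices of bad branches -/
theorem ncard_bad [Fintype V] (hT : T.IsTree) [DecidablePred fun p : V × V => Bad T p.1 p.2] :
    {v | ∃ u r, Bad T u r ∧ v ∈ branch T u r}.ncard =
      ∑ p : V × V with Bad T p.1 p.2,
        (fixR (T.induce (branch T p.1 p.2)) (root T p.1 p.2)).ncard := by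
  classical
  set f : V × V → Set V := fun p => {v | ∃ hv : v ∈ branch T p.1 p.2,
      (⟨v, hv⟩ : branch T p.1 p.2) ∈ fixR (T.induce (branch T p.1 p.2)) (root T p.1 p.2)} with hf
  have h1 : ∀ p : V × V, (fixR (T.induce (branch T p.1 p.2)) (root T p.1 p.2)).ncard =
      (f p).ncard := by
    intro p
    have : f p = Subtype.val '' fixR (T.induce (branch T p.1 p.2)) (root T p.1 p.2) := by
      ext v
      constructor
      · rintro ⟨hv, h⟩
        exact ⟨⟨v, hv⟩, h, rfl⟩
      · rintro ⟨x, hx, rfl⟩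
        exact ⟨x.2, hx⟩
    rw [this]
    exact (Set.ncard_image_of_injective _ Subtype.val_injective).symm
  simp_rw [h1]
  have h2 : {v | ∃ u r, Bad T u r ∧ v ∈ branch T u r} =
      ((univ.filter fun p : V × V => Bad T p.1 p.2).biUnion fun p => (f p).toFinset : Finset V) := by
    ext v
    simp only [coe_biUnion, mem_coe, mem_filter, mem_univ, true_and, Set.mem_iUnion,
      Set.coe_toFinset, exists_prop]
    constructor
    · intro h
      obtain ⟨p, hp, -⟩ := exists_unique_bad hT h
      exact ⟨p, hp.1, hp.2⟩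
    · rintro ⟨p, hp, hv, -⟩
      exact ⟨p.1, p.2, hp, hv⟩
  rw [h2, Set.ncard_coe_finset, card_biUnion]
  · refine sum_congr rfl fun p _ => ?_
    rw [Set.ncard_eq_toFinset_card']
  · intro p hp q hq hpq
    have hp := mem_filter.1 (mem_coe.1 hp)
    have hq := mem_filter.1 (mem_coe.1 hq)
    change Disjoint _ _
    rw [Finset.disjoint_left]
    intro v hv hv'
    rw [Set.mem_toFinset] at hv hv'
    have hex : ∃ u r, Bad T u r ∧ v ∈ branch T u r := ⟨p.1, p.2, hp.2, hv.1⟩
    exact hpq ((exists_unique_bad hT hex).unique ⟨hp.2, hv⟩ ⟨hq.2, hv'⟩)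

end Pool.Agent.H.MP_20afc1_co
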