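import Pool.Agent.H.MP_20afc1_co.Cut

/-!
Sums over rooted trees and relabelling.
-/

namespace Pool.Agent.H.MP_20afc1_co

open SimpleGraph Finset

section

variable {α β : Type}

/-- relabelling of rooted trees -/
def rtEquiv (e : α ≃ β) : RT α ≃ RT β :=
  (Equiv.prodCongr e.simpleGraph e).subtypeEquiv fun a =>
    ((Iso.comap e.symm a.1).symm).isTree_iff

theorem rtEquiv_riso (e : α ≃ β) (p : RT α) :
    RIso p.1.1 p.1.2 (rtEquiv e p).1.1 (rtEquiv e p).1.2 :=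
  ⟨(Iso.comap e.symm p.1.1).symm, rfl⟩

theorem sum_rt_congr [Finite α] [Finite β] (e : α ≃ β) (f : RT α → ℝ) (g : RT β → ℝ)
    (h : ∀ p q, RIso p.1.1 p.1.2 q.1.1 q.1.2 → f p = g q) : ∑ p, f p = ∑ q, g q := by
  rw [← Equiv.sum_comp (rtEquiv e) g]
  exact sum_congr rfl fun p _ => h p _ (rtEquiv_riso e p)

/-- functions of two rooted graphs -/
abbrev PairFun : Type 1 :=
  (α : Type) → SimpleGraph α → α → (β : Type) → SimpleGraph β → β → ℝ

/-- invariance under isomorphisms of rooted graphs -/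
def Inv (F : PairFun) : Prop :=
  ∀ (α α' β β' : Type) (G : SimpleGraph α) (r : α) (G' : SimpleGraph α') (r' : α')
    (H : SimpleGraph β) (s : β) (H' : SimpleGraph β') (s' : β'),
    RIso G r G' r' → RIso H s H' s' → F α G r β H s = F α' G' r' β' H' s'

/-- the value on parts -/
def onParts {V : Type} (F : PairFun) (P : Parts V) : ℝ :=
  F P.1 P.2.1.1.1 P.2.1.1.2 ↥P.1ᶜ P.2.2.1.1 P.2.2.1.2

theorem sum_parts (n : ℕ) (F : PairFun) (hF : Inv F) :
    ∑ P : Parts (Fin n), onParts F P = ∑ k ∈ range (n + 1), (n.choose k : ℝ) *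
      ∑ p : RT (Fin k), ∑ q : RT (Fin (n - k)),
        F (Fin k) p.1.1 p.1.2 (Fin (n - k)) q.1.1 q.1.2 := by
  classical
  set g : ℕ → ℝ := fun k => ∑ p : RT (Fin k), ∑ q : RT (Fin (n - k)),
        F (Fin k) p.1.1 p.1.2 (Fin (n - k)) q.1.1 q.1.2 with hg
  have h1 : ∑ P : Parts (Fin n), onParts F P =
      ∑ S : Set (Fin n), ∑ p : RT S, ∑ q : RT ↥Sᶜ, F S p.1.1 p.1.2 ↥Sᶜ q.1.1 q.1.2 := by
    let E : Parts (Fin n) ≃ ((S : Set (Fin n)) × (RT S × RT ↥Sᶜ)) := Equiv.refl _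
    have e1 : ∑ P : Parts (Fin n), onParts F P =
        ∑ P : ((S : Set (Fin n)) × (RT S × RT ↥Sᶜ)),
          F P.1 P.2.1.1.1 P.2.1.1.2 ↥P.1ᶜ P.2.2.1.1 P.2.2.1.2 :=
      Fintype.sum_equiv E _ _ (fun _ => rfl)
    rw [e1, Fintype.sum_sigma]
    refine sum_congr rfl fun S _ => ?_
    rw [Fintype.sum_prod_type]
  have h2 : ∀ S : Set (Fin n), ∑ p : RT S, ∑ q : RT ↥Sᶜ, F S p.1.1 p.1.2 ↥Sᶜ q.1.1 q.1.2 =
      g S.ncard := by
    intro S
    have c1 : Nat.card S = S.ncard := rfl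
    have c2 : Nat.card ↥Sᶜ = n - S.ncard := by
      have := Set.ncard_add_ncard_compl S
      rw [Nat.card_eq_fintype_card, Fintype.card_fin] at this
      have h3 : Nat.card ↥Sᶜ = Sᶜ.ncard := rfl
      omega
    have e1 : S ≃ Fin S.ncard := c1 ▸ Finite.equivFin S
    have e2 : ↥Sᶜ ≃ Fin (n - S.ncard) := c2 ▸ Finite.equivFin ↥Sᶜ
    rw [hg]
    apply sum_rt_congr e1
    intro p q hpq
    apply sum_rt_congr e2
    intro p' q' hpq'
    exact hF _ _ _ _ _ _ _ _ _ _ _ _ hpq hpq'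
  rw [h1]
  simp_rw [h2]
  have h3 : ∑ S : Set (Fin n), g S.ncard = ∑ s : Finset (Fin n), g s.card := by
    rw [← Equiv.sum_comp (Fintype.finsetEquivSet (α := Fin n))]
    refine sum_congr rfl fun s _ => ?_
    simp
  rw [h3]
  have h4 := sum_powerset_apply_card g (x := (univ : Finset (Fin n)))
  rw [powerset_univ, card_univ, Fintype.card_fin] at h4
  rw [h4]
  refine sum_congr rfl fun k _ => ?_
  rw [nsmul_eq_mul]

/-- the edge cut identity for invariant functions -/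
theorem sum_cut_fin (n : ℕ) (F : PairFun) (hF : Inv F) :
    ∑ x : Cut (Fin n), onParts F (toParts x) = ∑ k ∈ range (n + 1), (n.choose k : ℝ) *
      ∑ p : RT (Fin k), ∑ q : RT (Fin (n - k)),
        F (Fin k) p.1.1 p.1.2 (Fin (n - k)) q.1.1 q.1.2 := by
  rw [sum_cut (onParts F), sum_parts n F hF]

end

end Pool.Agent.H.MP_20afc1_co
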