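import Pool.Agent.H.MP_20afc1_co.Count

/-!
The number of vertices in bad branches, and the number of fixed vertices.
-/

namespace Pool.Agent.H.MP_20afc1_co

open SimpleGraph Finset

/-- trees with a directed edge are trees with a directed edge -/
def cutEquivPair (V : Type) : Cut V ≃ ((G : Tree V) × {p : V × V // G.1.Adj p.1 p.2}) where
  toFun x := ⟨⟨x.1.1, x.2.1⟩, ⟨(x.1.2.1, x.1.2.2), x.2.2⟩⟩
  invFun y := ⟨(y.1.1, y.2.1.1, y.2.1.2), y.1.2, y.2.2⟩
  left_inv _ := rfl
  right_inv _ := rfl

open Classical in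
theorem sum_cut_pair {V : Type} [Fintype V] (g : SimpleGraph V → V → V → ℝ) :
    ∑ x : Cut V, g x.1.1 x.1.2.1 x.1.2.2 =
      ∑ G : Tree V, ∑ p : V × V with G.1.Adj p.1 p.2, g G.1 p.1 p.2 := by
  rw [Fintype.sum_equiv (cutEquivPair V) (fun x => g x.1.1 x.1.2.1 x.1.2.2)
    (fun y => g y.1.1 y.2.1.1 y.2.1.2) (fun _ => rfl), Fintype.sum_sigma]
  refine sum_congr rfl fun G _ => ?_
  rw [← Finset.sum_subtype_eq_sum_filter]
  apply sum_congr _ (fun _ _ => rfl)
  ext u
  simp

/-- total number of vertices in bad branches -/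
noncomputable def numBad (n : ℕ) : ℝ :=
  ∑ G : Tree (Fin n), ({v | ∃ u r, Bad G.1 u r ∧ v ∈ branch G.1 u r}.ncard : ℝ)

theorem numBad_eq (n : ℕ) : numBad n = ∑ k ∈ range (n + 1), (n.choose k : ℝ) *
    ∑ p : RT (Fin k), (fixCard p.1.1 p.1.2 : ℝ) * hasBr (n - k) p := by
  classical
  set F : PairFun := fun _ G r _ H s' =>
    if cnt H s' G r ≠ 0 then (fixCard G r : ℝ) else 0 with hFdef
  have hF : Inv F := by
    intro α α' β β' G r G' r' H s H' s' h1 h2
    rw [hFdef]
    simp only
    unfold fixCard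
    rw [cnt_congr_left h2, cnt_congr_right h1, fixR_ncard_congr h1]
  have h1 := sum_cut_fin n F hF
  have h2 : ∑ x : Cut (Fin n), onParts F (toParts x) = numBad n := by
    set g : SimpleGraph (Fin n) → Fin n → Fin n → ℝ := fun G u r =>
      if Bad G u r then (fixCard (G.induce (branch G u r)) (root G u r) : ℝ) else 0 with hg
    have e1 : ∀ x : Cut (Fin n), onParts F (toParts x) = g x.1.1 x.1.2.1 x.1.2.2 := by
      rintro ⟨⟨G, u, r⟩, hG, hu⟩
      have h3 := bad_iff_cnt hG hu
      change (if cnt (G.induce (branch G u r)ᶜ) (proot hG hu) (G.induce (branch G u r))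
        (root G u r) ≠ 0 then (fixCard (G.induce (branch G u r)) (root G u r) : ℝ) else 0) = _
      rw [hg]
      simp only
      by_cases h : Bad G u r
      · rw [if_pos (h3.1 h), if_pos h]
      · rw [if_neg (fun hc => h (h3.2 hc)), if_neg h]
    rw [sum_congr rfl fun x _ => e1 x, sum_cut_pair g]
    unfold numBad
    refine sum_congr rfl fun G _ => ?_
    rw [ncard_bad G.2, hg]
    simp only
    rw [← sum_filter, filter_filter]
    push_cast
    apply sum_congr _ (fun _ _ => rfl)
    ext p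
    rw [mem_filter, mem_filter]
    exact ⟨fun h => ⟨h.1, h.2.2⟩, fun h => ⟨h.1, h.2.1, h.2⟩⟩
  rw [← h2, h1]
  refine sum_congr rfl fun k _ => ?_
  congr 1
  refine sum_congr rfl fun p _ => ?_
  rw [hFdef]
  simp only
  rw [← sum_filter, sum_const, nsmul_eq_mul, mul_comm]
  rfl

/-- the tree has an automorphism flipping an edge -/
def Flip {V : Type} (G : SimpleGraph V) : Prop :=
  ∃ x y, G.Adj x y ∧ ∃ σ : G ≃g G, σ x = y ∧ σ y = x

/-- number of trees with a flip -/
noncomputable def numFlip (n : ℕ) : ℝ :=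
  open Classical in ((univ.filter fun G : Tree (Fin n) => Flip G.1).card : ℝ)

theorem card_class_le {k : ℕ} (p : RT (Fin k)) :
    open Classical in
    ((univ.filter fun q : RT (Fin k) => RIso p.1.1 p.1.2 q.1.1 q.1.2).card : ℝ) ≤
      (k.factorial : ℝ) := by
  classical
  have h1 := card_class p
  have h2 := autCard_pos p
  have h3 : (univ.filter fun q : RT (Fin k) => RIso p.1.1 p.1.2 q.1.1 q.1.2) =
      (univ.filter fun q : RT (Fin k) => RIso q.1.1 q.1.2 p.1.1 p.1.2) := by
    apply filter_congr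
    intro q _
    exact ⟨RIso.symm, RIso.symm⟩
  rw [h3]
  have h4 : (univ.filter fun q : RT (Fin k) => RIso q.1.1 q.1.2 p.1.1 p.1.2).card ≤
      k.factorial := by
    rw [← h1]
    exact Nat.le_mul_of_pos_right _ h2
  exact_mod_cast h4

theorem numFlip_le (n : ℕ) : numFlip n ≤ if n = 2 * (n / 2) then
    (n.choose (n / 2) : ℝ) * (numRT (n / 2) * ((n / 2).factorial : ℝ)) else 0 := by
  classical
  set F : PairFun := fun _ G r _ H s' => if RIso G r H s' then 1 else 0 with hFdef
  have hF : Inv F := by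
    intro α α' β β' G r G' r' H s H' s' h1 h2
    rw [hFdef]
    simp only
    by_cases h : RIso G r H s
    · rw [if_pos h, if_pos ((h1.symm.trans h).trans h2)]
    · rw [if_neg h, if_neg (fun h' => h ((h1.trans h').trans h2.symm))]
  have h1 := sum_cut_fin n F hF
  have h2 : numFlip n ≤ ∑ x : Cut (Fin n), onParts F (toParts x) := by
    set g : SimpleGraph (Fin n) → Fin n → Fin n → ℝ := fun G u r =>
      if RIso (G.induce (branch G u r)) (root G u r) (G.induce (branch G r u)) (root G r u)
        then 1 else 0 with hg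
    have e1 : ∀ x : Cut (Fin n), onParts F (toParts x) = g x.1.1 x.1.2.1 x.1.2.2 := by
      rintro ⟨⟨G, u, r⟩, hG, hu⟩
      change (if RIso (G.induce (branch G u r)) (root G u r) (G.induce (branch G u r)ᶜ)
        (proot hG hu) then (1 : ℝ) else 0) = _
      rw [hg]
      simp only
      have h4 : RIso (G.induce (branch G u r)ᶜ) (proot hG hu) (G.induce (branch G r u))
          (root G r u) :=
        ⟨isoInduce Iso.refl fun x => by
          rw [branch_compl hG hu]
          exact Iff.rfl, rfl⟩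
      by_cases h : RIso (G.induce (branch G u r)) (root G u r) (G.induce (branch G u r)ᶜ)
          (proot hG hu)
      · rw [if_pos h, if_pos (h.trans h4)]
      · rw [if_neg h, if_neg (fun h' => h (h'.trans h4.symm))]
    rw [sum_congr rfl fun x _ => e1 x, sum_cut_pair g]
    unfold numFlip
    rw [card_filter]
    push_cast
    apply sum_le_sum
    intro G _
    have hnn : ∀ p ∈ univ.filter (fun p : Fin n × Fin n => G.1.Adj p.1 p.2),
        0 ≤ g G.1 p.1 p.2 := by
      intro p _
      rw [hg]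
      simp only
      split_ifs <;> norm_num
    split_ifs with hfl
    · obtain ⟨x, y, hxy, σ, hσ1, hσ2⟩ := hfl
      have hmem : (x, y) ∈ univ.filter (fun p : Fin n × Fin n => G.1.Adj p.1 p.2) := by
        rw [mem_filter]; exact ⟨mem_univ _, hxy⟩
      refine le_trans ?_ (single_le_sum hnn hmem)
      rw [hg]
      simp only
      rw [if_pos]
      have h5 : RIso (G.1.induce (branch G.1 x y)) (root G.1 x y)
          (G.1.induce (branch G.1 (σ x) (σ y))) (root G.1 (σ x) (σ y)) := ⟨brIso σ x y, rfl⟩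
      rw [hσ1, hσ2] at h5
      exact h5
    · exact sum_nonneg hnn
  refine h2.trans ?_
  rw [h1]
  have e2 : ∀ k ∈ range (n + 1), ¬ (n = 2 * k) → (n.choose k : ℝ) *
      ∑ p : RT (Fin k), ∑ q : RT (Fin (n - k)),
      F (Fin k) p.1.1 p.1.2 (Fin (n - k)) q.1.1 q.1.2 = 0 := by
    intro k hk hnk
    have : ∀ p : RT (Fin k), ∑ q : RT (Fin (n - k)),
      F (Fin k) p.1.1 p.1.2 (Fin (n - k)) q.1.1 q.1.2 = 0 := by
      intro p
      apply sum_eq_zero
      intro q _
      rw [hFdef]
      simp only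
      rw [if_neg]
      rintro ⟨φ, -⟩
      apply hnk
      have h6 := Fintype.card_congr φ.toEquiv
      rw [Fintype.card_fin, Fintype.card_fin] at h6
      rw [mem_range] at hk
      omega
    rw [sum_congr rfl fun p _ => this p, sum_const_zero, mul_zero]
  have e3 : ∀ (k m : ℕ), m = k → ∑ p : RT (Fin k), ∑ q : RT (Fin m),
      F (Fin k) p.1.1 p.1.2 (Fin m) q.1.1 q.1.2 ≤ numRT k * (k.factorial : ℝ) := by
    rintro k m rfl
    have : ∀ p : RT (Fin m), ∑ q : RT (Fin m),
        F (Fin m) p.1.1 p.1.2 (Fin m) q.1.1 q.1.2 ≤ (m.factorial : ℝ) := by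
      intro p
      rw [hFdef]
      simp only
      rw [← sum_filter, sum_const, nsmul_eq_mul, mul_one]
      exact card_class_le p
    refine (sum_le_sum fun p _ => this p).trans ?_
    rw [sum_const, card_univ, nsmul_eq_mul]
    exact le_refl _
  split_ifs with hn
  · rw [sum_eq_single_of_mem (n / 2) (by rw [mem_range]; omega)
      (fun k hk hne => e2 k hk (by omega))]
    apply mul_le_mul_of_nonneg_left _ (Nat.cast_nonneg _)
    exact e3 (n / 2) (n - n / 2) (by omega)
  · rw [sum_eq_zero fun k hk => e2 k hk (by omega)]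

theorem expFixed_bounds (n : ℕ) (hn : 1 ≤ n) :
    expFixed n ≤ 1 - numBad n / numRT n ∧
    1 - numBad n / numRT n - n * numFlip n / numRT n ≤ expFixed n := by
  classical
  have hR := numRT_pos n hn
  have hn0 : (0 : ℝ) < n := by exact_mod_cast hn
  have hT : (0 : ℝ) < Nat.card (Tree (Fin n)) := by
    rw [numRT_eq] at hR
    exact pos_of_mul_pos_left hR hn0.le
  have h1 : expFixed n = (∑ G : Tree (Fin n), ((fixedVertices G.1).ncard : ℝ)) / numRT n := by
    unfold expFixed
    rw [← sum_div, numRT_eq, div_div]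
    rw [mul_comm]
  have hcard : ∀ G : Tree (Fin n), ((fixedVertices G.1).ncard : ℝ) =
      n - ((fixedVertices G.1)ᶜ.ncard : ℝ) := by
    intro G
    have := Set.ncard_add_ncard_compl (fixedVertices G.1)
    rw [Nat.card_eq_fintype_card, Fintype.card_fin] at this
    have h2 : ((fixedVertices G.1).ncard : ℝ) + ((fixedVertices G.1)ᶜ.ncard : ℝ) = n := by
      exact_mod_cast this
    linarith
  have hsum : ∑ G : Tree (Fin n), ((fixedVertices G.1).ncard : ℝ) =
      numRT n - ∑ G : Tree (Fin n), ((fixedVertices G.1)ᶜ.ncard : ℝ) := by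
    rw [sum_congr rfl fun G _ => hcard G, sum_sub_distrib, sum_const, card_univ, nsmul_eq_mul,
      numRT_eq, Nat.card_eq_fintype_card]
  have hlow : numBad n ≤ ∑ G : Tree (Fin n), ((fixedVertices G.1)ᶜ.ncard : ℝ) := by
    unfold numBad
    apply sum_le_sum
    intro G _
    have : {v | ∃ u r, Bad G.1 u r ∧ v ∈ branch G.1 u r} ⊆ (fixedVertices G.1)ᶜ := by
      rintro v ⟨u, r, hb, hv⟩ hf
      obtain ⟨σ, hσ⟩ := hb.moves G.2 hv
      exact hσ (hf σ)
    exact_mod_cast Set.ncard_le_ncard this (Set.toFinite _)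
  have hup : ∑ G : Tree (Fin n), ((fixedVertices G.1)ᶜ.ncard : ℝ) ≤
      numBad n + n * numFlip n := by
    unfold numBad numFlip
    rw [card_filter]
    push_cast
    rw [mul_sum, ← sum_add_distrib]
    apply sum_le_sum
    intro G _
    by_cases hfl : Flip G.1
    · rw [if_pos hfl, mul_one]
      have h3 : (fixedVertices G.1)ᶜ.ncard ≤ n := by
        have := Set.ncard_le_ncard (Set.subset_univ (fixedVertices G.1)ᶜ) (Set.toFinite _)
        rw [Set.ncard_univ, Nat.card_eq_fintype_card, Fintype.card_fin] at this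
        exact this
      have h4 : ((fixedVertices G.1)ᶜ.ncard : ℝ) ≤ n := by exact_mod_cast h3
      have h5 : (0 : ℝ) ≤ ({v | ∃ u r, Bad G.1 u r ∧ v ∈ branch G.1 u r}.ncard : ℝ) :=
        Nat.cast_nonneg _
      linarith
    · rw [if_neg hfl, mul_zero, add_zero]
      have : (fixedVertices G.1)ᶜ ⊆ {v | ∃ u r, Bad G.1 u r ∧ v ∈ branch G.1 u r} := by
        intro v hv
        have hv' : ¬ ∀ σ : G.1 ≃g G.1, σ v = v := hv
        push Not at hv'
        obtain ⟨σ, hσ⟩ := hv'
        by_cases hfix : ∃ x, σ x = x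
        · obtain ⟨u, r, h6, h7, h8, h9⟩ := exists_bad G.2 σ hfix hσ
          exact ⟨u, r, ⟨h6, σ, h7, h8⟩, h9⟩
        · push Not at hfix
          obtain ⟨x, y, hxy, h6, h7⟩ := exists_flip G.2 σ hfix
          exact absurd ⟨x, y, hxy, σ, h6, h7⟩ hfl
      exact_mod_cast Set.ncard_le_ncard this (Set.toFinite _)
  constructor
  · rw [h1, hsum, sub_div, div_self hR.ne']
    have : numBad n / numRT n ≤
        (∑ G : Tree (Fin n), ((fixedVertices G.1)ᶜ.ncard : ℝ)) / numRT n := by gcongr
    linarith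
  · rw [h1, hsum, sub_div, div_self hR.ne']
    have : (∑ G : Tree (Fin n), ((fixedVertices G.1)ᶜ.ncard : ℝ)) / numRT n ≤
        (numBad n + n * numFlip n) / numRT n := by gcongr
    rw [add_div] at this
    linarith

end Pool.Agent.H.MP_20afc1_co
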