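import Pool.Agent.H.MP_20afc1_co.Aut

/-!
Every vertex in a bad branch is a fixed vertex of exactly one bad branch.
-/

namespace Pool.Agent.H.MP_20afc1_co

open SimpleGraph

variable {V W : Type} {T : SimpleGraph V} {u u' w r x x' y z v : V}

open Classical in
/-- extension by the identity -/
noncomputable def extFun (a : T.induce (branch T u r) ≃g T.induce (branch T u r)) (x : V) : V :=
  if hx : x ∈ branch T u r then (a ⟨x, hx⟩ : V) else x

section ext

variable (a : T.induce (branch T u r) ≃g T.induce (branch T u r))

theorem extFun_in (hx : x ∈ branch T u r) : extFun a x = a ⟨x, hx⟩ := by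
  unfold extFun; rw [dif_pos hx]

theorem extFun_out (hx : x ∉ branch T u r) : extFun a x = x := by
  unfold extFun; rw [dif_neg hx]

theorem extFun_symm (x : V) : extFun a.symm (extFun a x) = x := by
  by_cases h1 : x ∈ branch T u r
  · rw [extFun_in a h1, extFun_in a.symm (a ⟨x, h1⟩).2]
    simp
  · rw [extFun_out a h1, extFun_out a.symm h1]

theorem extFun_adj (hT : T.IsTree) (hu : T.Adj u r) (ha : a (root T u r) = root T u r)
    (hxy : T.Adj x y) : T.Adj (extFun a x) (extFun a y) := by
  have hac := hT.isAcyclic
  have hr : r ∉ branch T u r := not_mem_branch hac hu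
  have hau : extFun a u = u := by
    rw [extFun_in a mem_branch_self]
    exact congrArg Subtype.val ha
  have har : extFun a r = r := extFun_out a hr
  have key : ∀ x y : V, T.Adj x y → x ∈ branch T u r → T.Adj (extFun a x) (extFun a y) := by
    intro x y hxy hx
    by_cases hy : y ∈ branch T u r
    · rw [extFun_in a hx, extFun_in a hy]
      exact (a.map_adj_iff (v := ⟨x, hx⟩) (w := ⟨y, hy⟩)).2 hxy
    · have hc := branch_cross hac hu hxy hx hy
      rw [hc.1, hc.2, hau, har]
      exact hu
  by_cases hx : x ∈ branch T u r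
  · exact key x y hxy hx
  · by_cases hy : y ∈ branch T u r
    · exact (key y x hxy.symm hy).symm
    · rw [extFun_out a hx, extFun_out a hy]
      exact hxy

/-- the automorphism of the tree extending an automorphism of the branch -/
noncomputable def extIso (hT : T.IsTree) (hu : T.Adj u r) (ha : a (root T u r) = root T u r) :
    T ≃g T where
  toFun := extFun a
  invFun := extFun a.symm
  left_inv := extFun_symm a
  right_inv := fun x => by
    have := extFun_symm a.symm x
    simpa using this
  map_rel_iff' := by
    intro b c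
    have ha' : a.symm (root T u r) = root T u r := by
      have := congrArg a.symm ha
      simpa using this.symm
    constructor
    · intro h
      have := extFun_adj a.symm hT hu ha' h
      simp only [Equiv.coe_fn_mk] at this
      rw [extFun_symm, extFun_symm] at this
      exact this
    · intro h
      exact extFun_adj a hT hu ha h

theorem extIso_apply (hT : T.IsTree) (hu : T.Adj u r) (ha : a (root T u r) = root T u r) (x : V) :
    extIso a hT hu ha x = extFun a x := rfl

end ext

theorem uniq_aux [Finite V] (hT : T.IsTree) (hb : Bad T u r) (hb' : Bad T x x')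
    (hv : v ∈ branch T u r) (hv' : v ∈ branch T x x')
    (hf : (⟨v, hv⟩ : branch T u r) ∈ fixR (T.induce (branch T u r)) (root T u r))
    (hsub : branch T x x' ⊆ branch T u r) : x = u ∧ x' = r := by
  have hac := hT.isAcyclic
  have hur := hb.1
  have hxx := hb'.1
  have hxin : x ∈ branch T u r := hsub mem_branch_self
  by_contra hcon
  have hx'in : x' ∈ branch T u r := by
    by_contra h
    exact hcon (branch_cross hac hur hxx hxin h)
  have hsm := hb.small hT
  have hsm' := hb'.small hT
  have hsz := ncard_branch_add hT hur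
  obtain ⟨_, σ, hσ, hσx⟩ := hb'
  have hw : T.Adj (σ x) x' := by
    have := σ.map_adj_iff.2 hxx
    rwa [hσ] at this
  have hszw := ncard_branch_iso (u := x) (u' := x') σ
  rw [hσ] at hszw
  have hr : r ∉ branch T u r := not_mem_branch hac hur
  -- the other branch is inside as well
  have hwin : σ x ∈ branch T u r := by
    by_contra h
    have h1 := branch_cross hac hur hw.symm hx'in h
    have h2 : branch T (σ x) x' = branch T r u := by rw [h1.1, h1.2]
    rw [h2] at hszw
    omega
  have hsub' : branch T (σ x) x' ⊆ branch T u r := by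
    rcases side hac hw (induce_branch_connected r u).preconnected
      (fun h => by
        rw [branch_compl hT hur] at h
        exact h.1 hwin) with h3 | h3
    · exfalso
      have := Set.ncard_le_ncard h3 (Set.toFinite _)
      omega
    · rw [branch_compl hT hur, Set.disjoint_left] at h3
      intro z hz
      by_contra hz'
      exact h3 hz' hz
  -- the swap
  have hne : x ≠ σ x := Ne.symm hσx
  have hψ' : RIso (T.induce (branch T x x')) (root T x x')
      (T.induce (branch T (σ x) (σ x'))) (root T (σ x) (σ x')) := ⟨brIso σ x x', rfl⟩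
  obtain ⟨τ, hτ1, hτ2⟩ : ∃ τ : T ≃g T, (∀ z, z ∉ branch T u r → τ z = z) ∧
      τ u = u ∧ τ v ≠ v := by
    have e : ∃ ψ : T.induce (branch T x x') ≃g T.induce (branch T (σ x) x'),
        ψ (root T x x') = root T (σ x) x' := by
      rw [hσ] at hψ'
      exact hψ'
    obtain ⟨ψ, hψ⟩ := e
    refine ⟨swapIso ψ hT hxx hw hne hψ, ?_, ?_, ?_⟩
    · intro z hz
      rw [swapIso_apply]
      exact swapFun_out ψ (fun h => hz (hsub h)) (fun h => hz (hsub' h))
    · rw [swapIso_apply]
      apply swapFun_out
      · intro h
        have h1 := branch_cross hac hxx hur h (fun h => hr (hsub h))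
        exact hcon ⟨h1.1.symm, h1.2.symm⟩
      · intro h
        have h1 := branch_cross hac hw hur h (fun h => hr (hsub' h))
        rw [← h1.2] at hx'in
        exact hr hx'in
    · rw [swapIso_apply, swapFun_left ψ hv']
      intro h
      have h1 : v ∈ branch T (σ x) x' := by
        rw [← h]
        exact (ψ ⟨v, hv'⟩).2
      exact Set.disjoint_left.1 (branch_disjoint hT hxx hw hne) hv' h1
  -- restrict to the branch
  have hinv : ∀ z, z ∈ branch T u r ↔ τ z ∈ branch T u r := by
    have hτr : τ r = r := hτ1 r hr
    intro z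
    have := branch_iso (x := z) (u := u) (u' := r) τ
    rwa [hτ2.1, hτr] at this
  have h1 := hf (isoInduce τ hinv) (by
    apply Subtype.ext
    rw [isoInduce_apply]
    exact hτ2.1)
  have h2 := congrArg Subtype.val h1
  rw [isoInduce_apply] at h2
  exact hτ2.2 h2

theorem exists_aux [Finite V] (hT : T.IsTree) (h : ∃ u r, Bad T u r ∧ v ∈ branch T u r) :
    ∃ u r, Bad T u r ∧ ∃ hv : v ∈ branch T u r,
      (⟨v, hv⟩ : branch T u r) ∈ fixR (T.induce (branch T u r)) (root T u r) := by
  have hne : {p : V × V | Bad T p.1 p.2 ∧ v ∈ branch T p.1 p.2}.Nonempty := by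
    obtain ⟨u, r, h1, h2⟩ := h
    exact ⟨(u, r), h1, h2⟩
  obtain ⟨⟨u, r⟩, hp, hmin⟩ := Set.exists_min_image _ (fun p : V × V => (branch T p.1 p.2).ncard)
    (Set.toFinite _) hne
  obtain ⟨hb, hv⟩ := hp
  simp only at hb hv
  refine ⟨u, r, hb, hv, ?_⟩
  intro a ha
  by_contra hav
  have hur := hb.1
  have hac := hT.isAcyclic
  have hfixu : extIso a hT hur ha u = u := by
    rw [extIso_apply, extFun_in a mem_branch_self]
    exact congrArg Subtype.val ha
  have hfixo : ∀ z, z ∉ branch T u r → extIso a hT hur ha z = z := by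
    intro z hz
    rw [extIso_apply, extFun_out a hz]
  have hmv : extIso a hT hur ha v ≠ v := by
    rw [extIso_apply, extFun_in a hv]
    intro h
    exact hav (Subtype.ext h)
  obtain ⟨x, x', hxx, h1, h2, h3⟩ := exists_bad hT (extIso a hT hur ha) ⟨u, hfixu⟩ hmv
  have hb' : Bad T x x' := ⟨hxx, _, h1, h2⟩
  have h4 := hmin (x, x') ⟨hb', h3⟩
  simp only at h4
  rcases nested hT hur hxx (hb.small hT) (hb'.small hT) ⟨v, hv, h3⟩ with h5 | h5
  · -- `branch u r ⊆ branch x x'`
    have h6 : x' ∉ branch T u r := fun h => not_mem_branch hac hxx (h5 h)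
    have h7 : x ∈ branch T u r := by
      by_contra h
      exact h2 (hfixo x h)
    have h8 := branch_cross hac hur hxx h7 h6
    rw [h8.1] at h2
    exact h2 hfixu
  · have h6 : branch T x x' = branch T u r :=
      Set.eq_of_subset_of_ncard_le h5 h4 (Set.toFinite _)
    have h7 : x ∈ branch T u r := h5 mem_branch_self
    have h8 : x' ∉ branch T u r := by
      rw [← h6]; exact not_mem_branch hac hxx
    have h9 := branch_cross hac hur hxx h7 h8
    rw [h9.1] at h2
    exact h2 hfixu

/-- a vertex in a bad branch is a fixed vertex of exactly one bad branch -/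
theorem exists_unique_bad [Finite V] (hT : T.IsTree) (h : ∃ u r, Bad T u r ∧ v ∈ branch T u r) :
    ∃! p : V × V, Bad T p.1 p.2 ∧ ∃ hv : v ∈ branch T p.1 p.2,
      (⟨v, hv⟩ : branch T p.1 p.2) ∈ fixR (T.induce (branch T p.1 p.2)) (root T p.1 p.2) := by
  obtain ⟨u, r, hb, hv, hf⟩ := exists_aux hT h
  refine ⟨(u, r), ⟨hb, hv, hf⟩, ?_⟩
  rintro ⟨x, x'⟩ ⟨hb', hv', hf'⟩
  simp only at hb' hv' hf'
  rcases nested hT hb.1 hb'.1 (hb.small hT) (hb'.small hT) ⟨v, hv, hv'⟩ with h5 | h5
  · have := uniq_aux hT hb' hb hv' hv hf' h5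
    rw [this.1, this.2]
  · have := uniq_aux hT hb hb' hv hv' hf h5
    rw [this.1, this.2]

end Pool.Agent.H.MP_20afc1_co
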